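import Pool.Agent.H674.MML.Expr

/-!
# Extension of partial bits, amalgamation, raising of valuations
-/

set_option autoImplicit false

namespace Pool.Agent.H674.MML

open Fm Set Pt

/-- Partially defined bits extend to all sets. -/
lemma exists_bits {W : Type} (κ : Bool) (Dom b : Set W → ℕ → Prop)
    (h : κ = true → ∀ a c i j, Dom a j → Dom c i → a ⊆ c → idx i < idx j → b a j → b c i) :
    ∃ d : Set W → ℕ → Prop, (κ = true → Mono d) ∧ ∀ a i, Dom a i → (d a i ↔ b a i) := by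
  refine ⟨fun c i => (Dom c i ∧ b c i) ∨
    (¬ Dom c i ∧ ∃ a j, Dom a j ∧ a ⊆ c ∧ idx i ≤ idx j ∧ b a j), ?_, ?_⟩
  · intro hκ c c' hcc i j hij hd
    by_cases hD : Dom c' i
    · left
      refine ⟨hD, ?_⟩
      rcases hd with ⟨h1, h2⟩ | ⟨_, a, k, h1, h2, h3, h4⟩
      · exact h hκ c c' i j h1 hD hcc hij h2
      · exact h hκ a c' i k h1 hD (h2.trans hcc) (lt_of_lt_of_le hij h3) h4
    · right
      refine ⟨hD, ?_⟩
      rcases hd with ⟨h1, h2⟩ | ⟨_, a, k, h1, h2, h3, h4⟩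
      · exact ⟨c, j, h1, hcc, hij.le, h2⟩
      · exact ⟨a, k, h1, h2.trans hcc, hij.le.trans h3, h4⟩
  · intro a i hD
    constructor
    · rintro (h1 | h1)
      · exact h1.2
      · exact absurd hD h1.1
    · exact fun h1 => Or.inl ⟨hD, h1⟩

/-- Monotonicity of the bits below `M`. -/
def MV {W : Type} (M : ℕ) (d : Set W → ℕ → Prop) : Prop :=
  ∀ a b : Set W, a ⊆ b → ∀ i j, i < M → j < M → idx i < idx j → d a j → d b i

lemma Mono.mv {W : Type} {d : Set W → ℕ → Prop} (h : Mono d) (M : ℕ) : MV M d :=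
  fun a b hab i j _ _ hij => h a b hab i j hij

/-- lifting bits along a surjection -/
lemma exists_lift {U W : Type} (κ : Bool) (M : ℕ) (g : U → W) (hg : Function.Surjective g)
    (d : Set W → ℕ → Prop) (hd : κ = true → MV M d) :
    ∃ D : Set U → ℕ → Prop, (κ = true → Mono D) ∧ ∀ a, ∀ k < M, (D (g ⁻¹' a) k ↔ d a k) := by
  have hinj : ∀ a b : Set W, g ⁻¹' a = g ⁻¹' b → a = b := fun a b h =>
    hg.preimage_injective h
  obtain ⟨D, h1, h2⟩ := exists_bits κ (fun (c : Set U) k => k < M ∧ ∃ a, c = g ⁻¹' a)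
    (fun c k => ∃ a, c = g ⁻¹' a ∧ d a k) (by
      rintro hκ a c i j ⟨hj, a', rfl⟩ ⟨hi, c', rfl⟩ hac hij ⟨a2, h3, h4⟩
      obtain rfl := hinj _ _ h3
      refine ⟨c', rfl, hd hκ a' c' ?_ i j hi hj hij h4⟩
      exact (hg.preimage_subset_preimage_iff).1 hac)
  refine ⟨D, h1, fun a k hk => ?_⟩
  rw [h2 _ _ ⟨hk, a, rfl⟩]
  constructor
  · rintro ⟨a2, h3, h4⟩
    obtain rfl := hinj _ _ h3
    exact h4
  · exact fun h => ⟨a, rfl, h⟩

section two

variable {W1 W2 : Type} (R : W1 → W2 → Prop)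

/-- the pairs in the relation -/
def RT : Type := {u : W1 × W2 // R u.1 u.2}

def p1 (u : RT R) : W1 := u.1.1
def p2 (u : RT R) : W2 := u.1.2

lemma p1_surj (h : ∀ w, ∃ w', R w w') : Function.Surjective (p1 R) := fun w => by
  obtain ⟨w', hw⟩ := h w
  exact ⟨⟨(w, w'), hw⟩, rfl⟩

lemma p2_surj (h : ∀ w', ∃ w, R w w') : Function.Surjective (p2 R) := fun w' => by
  obtain ⟨w, hw⟩ := h w'
  exact ⟨⟨(w, w'), hw⟩, rfl⟩

/-- lifting bits from both sides -/
lemma exists_lift2 (κ : Bool) (M : ℕ) (tot : ∀ w, ∃ w', R w w') (sur : ∀ w', ∃ w, R w w')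
    (d1 : Set W1 → ℕ → Prop) (d2 : Set W2 → ℕ → Prop)
    (h11 : κ = true → MV M d1) (h22 : κ = true → MV M d2)
    (h12 : κ = true → ∀ (a : Set W1) (b : Set W2), (∀ w w', R w w' → w ∈ a → w' ∈ b) →
      ∀ i j, i < M → j < M → idx i < idx j → d1 a j → d2 b i)
    (h21 : κ = true → ∀ (b : Set W2) (a : Set W1), (∀ w w', R w w' → w' ∈ b → w ∈ a) →
      ∀ i j, i < M → j < M → idx i < idx j → d2 b j → d1 a i)
    (hrig : ∀ a b, Rig R a b → ∀ k < M, d1 a k ↔ d2 b k) :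
    ∃ D : Set (RT R) → ℕ → Prop, (κ = true → Mono D) ∧
      (∀ a, ∀ k < M, (D (p1 R ⁻¹' a) k ↔ d1 a k)) ∧
      (∀ b, ∀ k < M, (D (p2 R ⁻¹' b) k ↔ d2 b k)) := by
  have hs1 := p1_surj R tot
  have hs2 := p2_surj R sur
  have hrig' : ∀ (a : Set W1) (b : Set W2), p1 R ⁻¹' a = p2 R ⁻¹' b → Rig R a b := by
    intro a b h w w' hw
    have : (⟨(w, w'), hw⟩ : RT R) ∈ p1 R ⁻¹' a ↔ (⟨(w, w'), hw⟩ : RT R) ∈ p2 R ⁻¹' b := by
      rw [h]
    exact this
  have s12 : ∀ (a : Set W1) (b : Set W2), p1 R ⁻¹' a ⊆ p2 R ⁻¹' b →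
      ∀ w w', R w w' → w ∈ a → w' ∈ b := fun a b h w w' hw ha => h (a := ⟨(w, w'), hw⟩) ha
  have s21 : ∀ (b : Set W2) (a : Set W1), p2 R ⁻¹' b ⊆ p1 R ⁻¹' a →
      ∀ w w', R w w' → w' ∈ b → w ∈ a := fun b a h w w' hw hb => h (a := ⟨(w, w'), hw⟩) hb
  let bb : Set (RT R) → ℕ → Prop := fun c k =>
    (∃ a, c = p1 R ⁻¹' a ∧ d1 a k) ∨ (∃ b, c = p2 R ⁻¹' b ∧ d2 b k)
  have e1 : ∀ a, ∀ k < M, (bb (p1 R ⁻¹' a) k ↔ d1 a k) := by
    intro a k hk
    constructor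
    · rintro (⟨a2, h3, h4⟩ | ⟨b, h3, h4⟩)
      · obtain rfl := hs1.preimage_injective h3
        exact h4
      · exact (hrig a b (hrig' a b h3) k hk).2 h4
    · exact fun h => Or.inl ⟨a, rfl, h⟩
  have e2 : ∀ b, ∀ k < M, (bb (p2 R ⁻¹' b) k ↔ d2 b k) := by
    intro b k hk
    constructor
    · rintro (⟨a, h3, h4⟩ | ⟨b2, h3, h4⟩)
      · exact (hrig a b (hrig' a b h3.symm) k hk).1 h4
      · obtain rfl := hs2.preimage_injective h3
        exact h4
    · exact fun h => Or.inr ⟨b, rfl, h⟩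
  obtain ⟨D, h1, h2⟩ := exists_bits κ
    (fun (c : Set (RT R)) k => k < M ∧ ((∃ a, c = p1 R ⁻¹' a) ∨ ∃ b, c = p2 R ⁻¹' b)) bb (by
      rintro hκ a c i j ⟨hj, ha⟩ ⟨hi, hc⟩ hac hij hb
      rcases ha with ⟨a, rfl⟩ | ⟨a, rfl⟩
      · rw [e1 _ _ hj] at hb
        rcases hc with ⟨c, rfl⟩ | ⟨c, rfl⟩
        · rw [e1 _ _ hi]
          exact h11 hκ a c ((hs1.preimage_subset_preimage_iff).1 hac) i j hi hj hij hb
        · rw [e2 _ _ hi]
          exact h12 hκ a c (s12 _ _ hac) i j hi hj hij hb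
      · rw [e2 _ _ hj] at hb
        rcases hc with ⟨c, rfl⟩ | ⟨c, rfl⟩
        · rw [e1 _ _ hi]
          exact h21 hκ a c (s21 _ _ hac) i j hi hj hij hb
        · rw [e2 _ _ hi]
          exact h22 hκ a c ((hs2.preimage_subset_preimage_iff).1 hac) i j hi hj hij hb)
  refine ⟨D, h1, fun a k hk => ?_, fun b k hk => ?_⟩
  · rw [h2 _ _ ⟨hk, Or.inl ⟨a, rfl⟩⟩, e1 _ _ hk]
  · rw [h2 _ _ ⟨hk, Or.inr ⟨b, rfl⟩⟩, e2 _ _ hk]

end two

/-- Pull back of a valuation, restricted to the variables in `P` and to level `M`. -/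
def pbk {U W : Type} (P : Set ℕ) (M : ℕ) (V : Pt W → ℕ → Prop) (g : U → W) : Pt U → ℕ → Prop
  | z => fun p => p ∈ P ∧ V z p
  | w0 u => fun p => p ∈ P ∧ V (w0 (g u)) p
  | w1 u => fun p => p ∈ P ∧ V (w1 (g u)) p
  | e k => fun p => p ∈ P ∧ k ≤ M ∧ V (e k) p
  | rho => fun p => p ∈ P ∧ V rho p

lemma bis_pbk {U W : Type} (P : Set ℕ) (M : ℕ) (V : Pt W → ℕ → Prop) (g : U → W)
    (hg : Function.Surjective g) (D : Set U → ℕ → Prop) (d : Set W → ℕ → Prop)
    (h : ∀ a, ∀ k < M, (D (g ⁻¹' a) k ↔ d a k)) :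
    Bis P M D (pbk P M V g) d V (fun u w => g u = w) where
  tot := fun u => ⟨g u, rfl⟩
  sur := hg
  h0 := by rintro u _ rfl p hp; simp [pbk, hp]
  h1 := by rintro u _ rfl p hp; simp [pbk, hp]
  hz := by intro p hp; simp [pbk, hp]
  hr := by intro p hp; simp [pbk, hp]
  he := by intro k hk p hp; simp [pbk, hp, hk]
  hd := by
    intro a a' hr k hk
    have : a = g ⁻¹' a' := by ext u; exact hr u _ rfl
    rw [this]
    exact h a' k hk

/-- Raising of valuations along a relation. -/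
structure Raise {W1 W2 : Type} (P : Set ℕ) (M : ℕ) (V1 : Pt W1 → ℕ → Prop)
    (V2 : Pt W2 → ℕ → Prop) (R : W1 → W2 → Prop) : Prop where
  h0 : ∀ w w', R w w' → ∀ p ∈ P, V1 (w0 w) p → V2 (w0 w') p
  h1 : ∀ w w', R w w' → ∀ p ∈ P, V1 (w1 w) p → V2 (w1 w') p
  hz : ∀ p ∈ P, V1 z p → V2 z p
  hr : ∀ p ∈ P, V1 rho p → V2 rho p
  he : ∀ k ≤ M, ∀ p ∈ P, V1 (e k) p → V2 (e k) p

lemma Raise.pbk_le {W1 W2 : Type} {P : Set ℕ} {M : ℕ} {V1 : Pt W1 → ℕ → Prop}
    {V2 : Pt W2 → ℕ → Prop} {R : W1 → W2 → Prop} (h : Raise P M V1 V2 R) (x : Pt (RT R))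
    (p : ℕ) (hx : pbk P M V1 (p1 R) x p) : pbk P M V2 (p2 R) x p := by
  cases x with
  | z => exact ⟨hx.1, h.hz p hx.1 hx.2⟩
  | w0 u => exact ⟨hx.1, h.h0 _ _ u.2 p hx.1 hx.2⟩
  | w1 u => exact ⟨hx.1, h.h1 _ _ u.2 p hx.1 hx.2⟩
  | e k => exact ⟨hx.1, hx.2.1, h.he k hx.2.1 p hx.1 hx.2.2⟩
  | rho => exact ⟨hx.1, h.hr p hx.1 hx.2⟩

/-- Semantic monotonicity of `f` at the point `pt κ`. -/
def SMon (κ : Bool) (f : Fm) : Prop :=
  ∀ (W : Type) [Nonempty W] (d : Set W → ℕ → Prop) (V V' : Pt W → ℕ → Prop),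
    (κ = true → Mono d) → (∀ x p, V x p → V' x p) → pt κ ∈ ext d V f → pt κ ∈ ext d V' f

section raising

variable {κ : Bool} {f : Fm} {M : ℕ} (hf : SMon κ f) (hM : depth f ≤ M)

include hf hM

lemma raise2 {W1 W2 : Type} [Nonempty W1] (R : W1 → W2 → Prop) (tot : ∀ w, ∃ w', R w w')
    (sur : ∀ w', ∃ w, R w w') (V1 : Pt W1 → ℕ → Prop) (V2 : Pt W2 → ℕ → Prop)
    (hR : Raise f.vars M V1 V2 R) (d1 : Set W1 → ℕ → Prop) (d2 : Set W2 → ℕ → Prop)
    (h11 : κ = true → MV M d1) (h22 : κ = true → MV M d2)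
    (h12 : κ = true → ∀ (a : Set W1) (b : Set W2), (∀ w w', R w w' → w ∈ a → w' ∈ b) →
      ∀ i j, i < M → j < M → idx i < idx j → d1 a j → d2 b i)
    (h21 : κ = true → ∀ (b : Set W2) (a : Set W1), (∀ w w', R w w' → w' ∈ b → w ∈ a) →
      ∀ i j, i < M → j < M → idx i < idx j → d2 b j → d1 a i)
    (hrig : ∀ a b, Rig R a b → ∀ k < M, d1 a k ↔ d2 b k)
    (h : pt κ ∈ ext d1 V1 f) : pt κ ∈ ext d2 V2 f := by
  obtain ⟨D, hD, e1, e2⟩ := exists_lift2 R κ M tot sur d1 d2 h11 h22 h12 h21 hrig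
  have hne : Nonempty (RT R) := (p1_surj R tot).nonempty
  have B1 := bis_pbk f.vars M V1 (p1 R) (p1_surj R tot) D d1 e1
  have B2 := bis_pbk f.vars M V2 (p2 R) (p2_surj R sur) D d2 e2
  rw [← B1.sat_pt κ f Subset.rfl hM] at h
  rw [← B2.sat_pt κ f Subset.rfl hM]
  exact hf (RT R) D _ _ hD hR.pbk_le h

lemma push {W1 W2 : Type} [Nonempty W1] (R : W1 → W2 → Prop) (tot : ∀ w, ∃ w', R w w')
    (sur : ∀ w', ∃ w, R w w') (V1 : Pt W1 → ℕ → Prop) (V2 : Pt W2 → ℕ → Prop)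
    (hR : Raise f.vars M V1 V2 R) (d1 : Set W1 → ℕ → Prop) (h11 : κ = true → MV M d1) :
    ∃ d2 : Set W2 → ℕ → Prop, (κ = true → MV M d2) ∧
      (∀ a b, Rig R a b → ∀ k < M, d1 a k ↔ d2 b k) ∧
      (pt κ ∈ ext d1 V1 f → pt κ ∈ ext d2 V2 f) := by
  obtain ⟨D, hD, e1⟩ := exists_lift κ M (p1 R) (p1_surj R tot) d1 h11
  have hne : Nonempty (RT R) := (p1_surj R tot).nonempty
  refine ⟨fun b k => D (p2 R ⁻¹' b) k, ?_, ?_, ?_⟩
  · intro hκ a b hab i j _ _ hij h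
    exact hD hκ _ _ (preimage_mono hab) i j hij h
  · intro a b hr k hk
    have : p2 R ⁻¹' b = p1 R ⁻¹' a := by
      ext u; exact (hr _ _ u.2).symm
    show d1 a k ↔ D (p2 R ⁻¹' b) k
    rw [this, e1 a k hk]
  · intro h
    have B1 := bis_pbk f.vars M V1 (p1 R) (p1_surj R tot) D d1 e1
    have B2 := bis_pbk f.vars M V2 (p2 R) (p2_surj R sur) D (fun b k => D (p2 R ⁻¹' b) k)
      (fun _ _ _ => Iff.rfl)
    rw [← B1.sat_pt κ f Subset.rfl hM] at h
    rw [← B2.sat_pt κ f Subset.rfl hM]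
    exact hf (RT R) D _ _ hD hR.pbk_le h

lemma pull {W1 W2 : Type} [Nonempty W1] (R : W1 → W2 → Prop) (tot : ∀ w, ∃ w', R w w')
    (sur : ∀ w', ∃ w, R w w') (V1 : Pt W1 → ℕ → Prop) (V2 : Pt W2 → ℕ → Prop)
    (hR : Raise f.vars M V1 V2 R) (d2 : Set W2 → ℕ → Prop) (h22 : κ = true → MV M d2) :
    ∃ d1 : Set W1 → ℕ → Prop, (κ = true → MV M d1) ∧
      (∀ a b, Rig R a b → ∀ k < M, d1 a k ↔ d2 b k) ∧
      (pt κ ∈ ext d1 V1 f → pt κ ∈ ext d2 V2 f) := by
  obtain ⟨D, hD, e2⟩ := exists_lift κ M (p2 R) (p2_surj R sur) d2 h22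
  have hne : Nonempty (RT R) := (p1_surj R tot).nonempty
  refine ⟨fun b k => D (p1 R ⁻¹' b) k, ?_, ?_, ?_⟩
  · intro hκ a b hab i j _ _ hij h
    exact hD hκ _ _ (preimage_mono hab) i j hij h
  · intro a b hr k hk
    have : p1 R ⁻¹' a = p2 R ⁻¹' b := by
      ext u; exact hr _ _ u.2
    show D (p1 R ⁻¹' a) k ↔ d2 b k
    rw [this, e2 b k hk]
  · intro h
    have B1 := bis_pbk f.vars M V1 (p1 R) (p1_surj R tot) D (fun b k => D (p1 R ⁻¹' b) k)
      (fun _ _ _ => Iff.rfl)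
    have B2 := bis_pbk f.vars M V2 (p2 R) (p2_surj R sur) D d2 e2
    rw [← B1.sat_pt κ f Subset.rfl hM] at h
    rw [← B2.sat_pt κ f Subset.rfl hM]
    exact hf (RT R) D _ _ hD hR.pbk_le h

/-- the order of the atoms restricted to `P` -/
def RP {W : Type} (P : Set ℕ) (V : Pt W → ℕ → Prop) (u v : W) : Prop :=
  (∀ p ∈ P, V (w0 u) p → V (w0 v) p) ∧ (∀ p ∈ P, V (w1 u) p → V (w1 v) p)

omit hf hM in
lemma RP.refl {W : Type} (P : Set ℕ) (V : Pt W → ℕ → Prop) (u : W) : RP P V u u :=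
  ⟨fun _ _ h => h, fun _ _ h => h⟩

lemma flipstep {W : Type} [Nonempty W] (V : Pt W → ℕ → Prop) (d1 d2 : Set W → ℕ → Prop)
    (h11 : κ = true → MV M d1) (h22 : κ = true → MV M d2)
    (h12 : κ = true → ∀ a b : Set W, a ⊆ b →
      ∀ i j, i < M → j < M → idx i < idx j → d1 a j → d2 b i)
    (h21 : κ = true → ∀ a b : Set W, a ⊆ b →
      ∀ i j, i < M → j < M → idx i < idx j → d2 a j → d1 b i)
    (hrig : ∀ a, Rig (RP f.vars V) a a → ∀ k < M, d1 a k ↔ d2 a k)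
    (h : pt κ ∈ ext d1 V f) : pt κ ∈ ext d2 V f := by
  refine raise2 hf hM (RP f.vars V) (fun w => ⟨w, RP.refl _ _ w⟩) (fun w => ⟨w, RP.refl _ _ w⟩)
    V V ?_ d1 d2 h11 h22 ?_ ?_ ?_ h
  · exact ⟨fun w w' h => h.1, fun w w' h => h.2, fun _ _ h => h, fun _ _ h => h,
      fun _ _ _ _ h => h⟩
  · exact fun hκ a b hab => h12 hκ a b fun w hw => hab w w (RP.refl _ _ w) hw
  · exact fun hκ a b hab => h21 hκ a b fun w hw => hab w w (RP.refl _ _ w) hw
  · intro a b hab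
    obtain rfl : a = b := by ext w; exact hab w w (RP.refl _ _ w)
    exact hrig a hab

end raising

/-- A finite descent through the cuts. -/
lemma descend (M : ℕ) (Q : Set ℕ → Prop)
    (hloc : ∀ G G' : Set ℕ, (∀ k < M, k ∈ G ↔ k ∈ G') → Q G → Q G')
    (hstep : ∀ t : ℚ, Q {k | idx k ≤ t} → Q {k | idx k < t}) (h : Q univ) : Q ∅ := by
  classical
  by_contra hcon
  have hne : (Finset.range M).Nonempty := by
    rw [Finset.nonempty_iff_ne_empty]
    intro h0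
    apply hcon
    refine hloc _ _ (fun k hk => ?_) h
    have := Finset.mem_range.2 hk
    rw [h0] at this
    simp at this
  set X := (Finset.range M).filter fun j => Q {k | idx k ≤ idx j} with hX
  have hXne : X.Nonempty := by
    obtain ⟨j, hj, hmax⟩ := Finset.exists_max_image (Finset.range M) idx hne
    refine ⟨j, Finset.mem_filter.2 ⟨hj, hloc _ _ (fun k hk => ?_) h⟩⟩
    simpa using hmax k (Finset.mem_range.2 hk)
  obtain ⟨j, hj, hmin⟩ := Finset.exists_min_image X idx hXne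
  have h1 := hstep _ (Finset.mem_filter.1 hj).2
  by_cases h2 : ((Finset.range M).filter fun k => idx k < idx j).Nonempty
  · obtain ⟨m, hm, hmax⟩ := Finset.exists_max_image _ idx h2
    have hm' := Finset.mem_filter.1 hm
    have h3 : m ∈ X := by
      refine Finset.mem_filter.2 ⟨hm'.1, hloc _ _ (fun k hk => ?_) h1⟩
      constructor
      · intro hk'
        exact hmax k (Finset.mem_filter.2 ⟨Finset.mem_range.2 hk, hk'⟩)
      · intro hk'
        exact lt_of_le_of_lt hk' hm'.2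
    exact absurd (hmin m h3) (not_le.2 hm'.2)
  · apply hcon
    refine hloc _ _ (fun k hk => ?_) h1
    constructor
    · intro hk'
      exact (h2 ⟨k, Finset.mem_filter.2 ⟨Finset.mem_range.2 hk, hk'⟩⟩).elim
    · exact fun hk' => hk'.elim

lemma bits_local {κ : Bool} {f : Fm} {M : ℕ} (hM : depth f ≤ M) {W : Type}
    (V : Pt W → ℕ → Prop) (d1 d2 : Set W → ℕ → Prop) (h : ∀ a, ∀ k < M, d1 a k ↔ d2 a k)
    (h1 : pt κ ∈ ext d1 V f) : pt κ ∈ ext d2 V f := by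
  have B : Bis f.vars M d1 V d2 V (fun u v => u = v) :=
    ⟨fun w => ⟨w, rfl⟩, fun w => ⟨w, rfl⟩, by rintro w _ rfl p _; exact Iff.rfl,
      by rintro w _ rfl p _; exact Iff.rfl, fun _ _ => Iff.rfl, fun _ _ => Iff.rfl,
      fun _ _ _ _ => Iff.rfl, by
        intro a b hab k hk
        obtain rfl : a = b := by ext w; exact hab w w rfl
        exact h a k hk⟩
  exact (B.sat_pt κ f Subset.rfl hM).1 h1

lemma flip {κ : Bool} {f : Fm} {M : ℕ} (hf : SMon κ f) (hM : depth f ≤ M) {W : Type} [Nonempty W]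
    (V : Pt W → ℕ → Prop) (d1 d2 : Set W → ℕ → Prop) (h1 : κ = true → MV M d1)
    (h2 : κ = true → MV M d2)
    (hrig : ∀ a, Rig (RP f.vars V) a a → ∀ k < M, d1 a k ↔ d2 a k)
    (h : pt κ ∈ ext d1 V f) : pt κ ∈ ext d2 V f := by
  cases κ with
  | false =>
    exact flipstep hf hM V d1 d2 (by simp) (by simp) (by simp) (by simp) hrig h
  | true =>
    have h1 := h1 rfl
    have h2 := h2 rfl
    -- hybrids
    have step1 : pt true ∈ ext (fun a k => d1 a k ∧ d2 a k) V f := by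
      have key := descend M (fun G => pt true ∈ ext (fun a k => d1 a k ∧ (d2 a k ∨ k ∈ G)) V f)
        (fun G G' hG => bits_local hM V _ _ fun a k hk => by
          rw [hG k hk]) ?_ ?_
      · refine bits_local hM V _ _ (fun a k hk => ?_) key
        simp
      · intro t ht
        refine flipstep hf hM V _ _ ?_ ?_ ?_ ?_ ?_ ht
        · intro _ a b hab i j hi hj hij hh
          exact ⟨h1 a b hab i j hi hj hij hh.1, hh.2.imp (h2 a b hab i j hi hj hij)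
            (fun h' => hij.le.trans h')⟩
        · intro _ a b hab i j hi hj hij hh
          exact ⟨h1 a b hab i j hi hj hij hh.1, hh.2.imp (h2 a b hab i j hi hj hij)
            (fun h' => hij.trans h')⟩
        · intro _ a b hab i j hi hj hij hh
          exact ⟨h1 a b hab i j hi hj hij hh.1, hh.2.imp (h2 a b hab i j hi hj hij)
            (fun h' => lt_of_lt_of_le hij h')⟩
        · intro _ a b hab i j hi hj hij hh
          exact ⟨h1 a b hab i j hi hj hij hh.1, hh.2.imp (h2 a b hab i j hi hj hij)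
            (fun h' => (hij.trans h').le)⟩
        · intro a ha k hk
          have := hrig a ha k hk
          show (d1 a k ∧ (d2 a k ∨ idx k ≤ t)) ↔ (d1 a k ∧ (d2 a k ∨ idx k < t))
          tauto
      · refine bits_local hM V _ _ (fun a k hk => ?_) h
        simp
    by_contra hcon
    have key := descend M (fun G => ¬ pt true ∈ ext (fun a k => d2 a k ∧ (d1 a k ∨ k ∈ G)) V f)
      (fun G G' hG hh hh' => hh (bits_local hM V _ _ (fun a k hk => by
          rw [hG k hk]) hh')) ?_ ?_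
    · apply key
      refine bits_local hM V _ _ (fun a k hk => ?_) step1
      simp [and_comm]
    · intro t ht hh
      apply ht
      refine flipstep hf hM V _ _ ?_ ?_ ?_ ?_ ?_ hh
      · intro _ a b hab i j hi hj hij hh
        exact ⟨h2 a b hab i j hi hj hij hh.1, hh.2.imp (h1 a b hab i j hi hj hij)
          (fun h' => hij.trans h')⟩
      · intro _ a b hab i j hi hj hij hh
        exact ⟨h2 a b hab i j hi hj hij hh.1, hh.2.imp (h1 a b hab i j hi hj hij)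
          (fun h' => hij.le.trans h')⟩
      · intro _ a b hab i j hi hj hij hh
        exact ⟨h2 a b hab i j hi hj hij hh.1, hh.2.imp (h1 a b hab i j hi hj hij)
          (fun h' => (hij.trans h').le)⟩
      · intro _ a b hab i j hi hj hij hh
        exact ⟨h2 a b hab i j hi hj hij hh.1, hh.2.imp (h1 a b hab i j hi hj hij)
          (fun h' => lt_of_lt_of_le hij h')⟩
      · intro a ha k hk
        have := hrig a ha k hk
        show (d2 a k ∧ (d1 a k ∨ idx k < t)) ↔ (d2 a k ∧ (d1 a k ∨ idx k ≤ t))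
        tauto
    · intro hh
      apply hcon
      refine bits_local hM V _ _ (fun a k hk => ?_) hh
      simp

end Pool.Agent.H674.MML
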