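import Pool.Agent.H674.MML.Sem

/-!
# Invariance of truth
-/

set_option autoImplicit false

namespace Pool.Agent.H674.MML

open Fm Set Pt

/-- Modal depth. -/
def depth : Fm → ℕ
  | pos _ => 0
  | neg _ => 0
  | bot => 0
  | top => 0
  | Fm.and φ ψ => max (depth φ) (depth ψ)
  | Fm.or φ ψ => max (depth φ) (depth ψ)
  | dia φ => depth φ + 1
  | box φ => depth φ + 1

lemma depth_not (φ : Fm) : depth φ.not = depth φ := by
  induction φ <;> simp_all [Fm.not, depth]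

lemma lits_vars {φ : Fm} {p : ℕ} {b : Bool} (h : (p, b) ∈ φ.lits) : p ∈ φ.vars := by
  induction φ with
  | pos q => simp_all [Fm.lits, Fm.vars]
  | neg q => simp_all [Fm.lits, Fm.vars]
  | bot => exact h.elim
  | top => exact h.elim
  | and φ ψ h1 h2 => exact h.imp h1 h2
  | or φ ψ h1 h2 => exact h.imp h1 h2
  | dia φ h1 => exact h1 h
  | box φ h1 => exact h1 h

lemma vars_lits {φ : Fm} {p : ℕ} (h : p ∈ φ.vars) : ∃ b, (p, b) ∈ φ.lits := by
  induction φ with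
  | pos q => exact ⟨true, by simp_all [Fm.lits, Fm.vars]⟩
  | neg q => exact ⟨false, by simp_all [Fm.lits, Fm.vars]⟩
  | bot => exact h.elim
  | top => exact h.elim
  | and φ ψ h1 h2 =>
    rcases h with h | h
    · obtain ⟨b, hb⟩ := h1 h; exact ⟨b, Or.inl hb⟩
    · obtain ⟨b, hb⟩ := h2 h; exact ⟨b, Or.inr hb⟩
  | or φ ψ h1 h2 =>
    rcases h with h | h
    · obtain ⟨b, hb⟩ := h1 h; exact ⟨b, Or.inl hb⟩
    · obtain ⟨b, hb⟩ := h2 h; exact ⟨b, Or.inr hb⟩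
  | dia φ h1 => exact h1 h
  | box φ h1 => exact h1 h

lemma finite_vars (φ : Fm) : φ.vars.Finite := by
  induction φ with
  | pos q => exact finite_singleton q
  | neg q => exact finite_singleton q
  | bot => exact finite_empty
  | top => exact finite_empty
  | and φ ψ h1 h2 => exact h1.union h2
  | or φ ψ h1 h2 => exact h1.union h2
  | dia φ h1 => exact h1
  | box φ h1 => exact h1

/-- Truth at the points `z`, `w0 w`, `w1 w` depends only on the values there. -/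
lemma loc_iff {W W' : Type} (d : Set W → ℕ → Prop) (V : Pt W → ℕ → Prop)
    (d' : Set W' → ℕ → Prop) (V' : Pt W' → ℕ → Prop) (P : Set ℕ)
    (hz : ∀ p ∈ P, V z p ↔ V' z p) (φ : Fm) (hφ : φ.vars ⊆ P) :
    (z ∈ ext d V φ ↔ z ∈ ext d' V' φ) ∧
    ∀ (w : W) (w' : W'), (∀ p ∈ P, V (w0 w) p ↔ V' (w0 w') p) →
      (∀ p ∈ P, V (w1 w) p ↔ V' (w1 w') p) →
      (w0 w ∈ ext d V φ ↔ w0 w' ∈ ext d' V' φ) ∧ (w1 w ∈ ext d V φ ↔ w1 w' ∈ ext d' V' φ) := by
  induction φ with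
  | pos p =>
    have hp : p ∈ P := hφ rfl
    exact ⟨hz p hp, fun w w' h0 h1 => ⟨h0 p hp, h1 p hp⟩⟩
  | neg p =>
    have hp : p ∈ P := hφ rfl
    exact ⟨not_congr (hz p hp), fun w w' h0 h1 => ⟨not_congr (h0 p hp), not_congr (h1 p hp)⟩⟩
  | bot => exact ⟨Iff.rfl, fun w w' _ _ => ⟨Iff.rfl, Iff.rfl⟩⟩
  | top => exact ⟨Iff.rfl, fun w w' _ _ => ⟨Iff.rfl, Iff.rfl⟩⟩
  | and φ ψ ih1 ih2 =>
    have i1 := ih1 fun p hp => hφ (Or.inl hp)
    have i2 := ih2 fun p hp => hφ (Or.inr hp)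
    refine ⟨and_congr i1.1 i2.1, fun w w' h0 h1 => ?_⟩
    exact ⟨and_congr (i1.2 w w' h0 h1).1 (i2.2 w w' h0 h1).1,
      and_congr (i1.2 w w' h0 h1).2 (i2.2 w w' h0 h1).2⟩
  | or φ ψ ih1 ih2 =>
    have i1 := ih1 fun p hp => hφ (Or.inl hp)
    have i2 := ih2 fun p hp => hφ (Or.inr hp)
    refine ⟨or_congr i1.1 i2.1, fun w w' h0 h1 => ?_⟩
    exact ⟨or_congr (i1.2 w w' h0 h1).1 (i2.2 w w' h0 h1).1,
      or_congr (i1.2 w w' h0 h1).2 (i2.2 w w' h0 h1).2⟩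
  | dia φ ih =>
    have i := ih hφ
    refine ⟨by simp, fun w w' h0 h1 => ?_⟩
    have := i.2 w w' h0 h1
    simp [i.1, this.1, this.2]
  | box φ ih =>
    have i := ih hφ
    refine ⟨by simp, fun w w' h0 h1 => ?_⟩
    have := i.2 w w' h0 h1
    simp [i.1, this.1, this.2]

/-- The pair `(a, a')` is rigid for the relation `R`. -/
def Rig {W W' : Type} (R : W → W' → Prop) (a : Set W) (a' : Set W') : Prop :=
  ∀ w w', R w w' → (w ∈ a ↔ w' ∈ a')

/-- Bisimulation up to level `M` for the variables in `P`. -/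
structure Bis {W W' : Type} (P : Set ℕ) (M : ℕ) (d : Set W → ℕ → Prop) (V : Pt W → ℕ → Prop)
    (d' : Set W' → ℕ → Prop) (V' : Pt W' → ℕ → Prop) (R : W → W' → Prop) : Prop where
  tot : ∀ w, ∃ w', R w w'
  sur : ∀ w', ∃ w, R w w'
  h0 : ∀ w w', R w w' → ∀ p ∈ P, V (w0 w) p ↔ V' (w0 w') p
  h1 : ∀ w w', R w w' → ∀ p ∈ P, V (w1 w) p ↔ V' (w1 w') p
  hz : ∀ p ∈ P, V z p ↔ V' z p
  hr : ∀ p ∈ P, V rho p ↔ V' rho p
  he : ∀ k ≤ M, ∀ p ∈ P, V (e k) p ↔ V' (e k) p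
  hd : ∀ a a', Rig R a a' → ∀ k < M, d a k ↔ d' a' k

variable {W W' : Type} {P : Set ℕ} {M : ℕ} {d : Set W → ℕ → Prop} {V : Pt W → ℕ → Prop}
  {d' : Set W' → ℕ → Prop} {V' : Pt W' → ℕ → Prop} {R : W → W' → Prop}

lemma Rig.union_univ (h1 : ∀ w, ∃ w', R w w') (h2 : ∀ w', ∃ w, R w w') {a b : Set W}
    {a' b' : Set W'} (ha : Rig R a a') (hb : Rig R b b') : a ∪ b = univ ↔ a' ∪ b' = univ := by
  simp only [eq_univ_iff_forall]
  constructor
  · intro h w'
    obtain ⟨w, hw⟩ := h2 w'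
    exact (h w).imp (ha w w' hw).1 (hb w w' hw).1
  · intro h w
    obtain ⟨w', hw⟩ := h1 w
    exact (h w').imp (ha w w' hw).2 (hb w w' hw).2

lemma Rig.inter_ne (h1 : ∀ w, ∃ w', R w w') (h2 : ∀ w', ∃ w, R w w') {a b : Set W}
    {a' b' : Set W'} (ha : Rig R a a') (hb : Rig R b b') :
    (a ∩ b).Nonempty ↔ (a' ∩ b').Nonempty := by
  constructor
  · rintro ⟨w, hwa, hwb⟩
    obtain ⟨w', hw⟩ := h1 w
    exact ⟨w', (ha w w' hw).1 hwa, (hb w w' hw).1 hwb⟩
  · rintro ⟨w', hwa, hwb⟩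
    obtain ⟨w, hw⟩ := h2 w'
    exact ⟨w, (ha w w' hw).2 hwa, (hb w w' hw).2 hwb⟩

lemma Rig.compl {a : Set W} {a' : Set W'} (ha : Rig R a a') : Rig R aᶜ a'ᶜ :=
  fun w w' h => not_congr (ha w w' h)

lemma Bis.sat_e (B : Bis P M d V d' V' R) (φ : Fm) (hφ : φ.vars ⊆ P) :
    ∀ k, k + depth φ ≤ M → (e k ∈ ext d V φ ↔ e k ∈ ext d' V' φ) := by
  induction φ with
  | pos p => exact fun k hk => B.he k (by simpa [depth] using hk) p (hφ rfl)
  | neg p => exact fun k hk => not_congr (B.he k (by simpa [depth] using hk) p (hφ rfl))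
  | bot => exact fun _ _ => Iff.rfl
  | top => exact fun _ _ => Iff.rfl
  | and φ ψ ih1 ih2 =>
    intro k hk
    simp only [depth] at hk
    exact and_congr (ih1 (fun p hp => hφ (Or.inl hp)) k (by omega))
      (ih2 (fun p hp => hφ (Or.inr hp)) k (by omega))
  | or φ ψ ih1 ih2 =>
    intro k hk
    simp only [depth] at hk
    exact or_congr (ih1 (fun p hp => hφ (Or.inl hp)) k (by omega))
      (ih2 (fun p hp => hφ (Or.inr hp)) k (by omega))
  | dia φ ih =>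
    intro k hk
    simp only [depth] at hk
    have l := loc_iff d V d' V' P B.hz φ hφ
    have r0 : Rig R {w | w0 w ∈ ext d V φ} {w | w0 w ∈ ext d' V' φ} :=
      fun w w' h => (l.2 w w' (B.h0 w w' h) (B.h1 w w' h)).1
    have r1 : Rig R {w | w1 w ∈ ext d V φ} {w | w1 w ∈ ext d' V' φ} :=
      fun w w' h => (l.2 w w' (B.h0 w w' h) (B.h1 w w' h)).2
    rw [dia_e, dia_e, ih hφ (k + 1) (by omega)]
    unfold Mod
    rw [r0.union_univ B.tot B.sur r1, r0.inter_ne B.tot B.sur r1, B.hd _ _ r0 k (by omega)]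
  | box φ ih =>
    intro k hk
    simp only [depth] at hk
    have l := loc_iff d V d' V' P B.hz φ hφ
    have r0 : Rig R {w | w0 w ∈ ext d V φ} {w | w0 w ∈ ext d' V' φ} :=
      fun w w' h => (l.2 w w' (B.h0 w w' h) (B.h1 w w' h)).1
    have r1 : Rig R {w | w1 w ∈ ext d V φ} {w | w1 w ∈ ext d' V' φ} :=
      fun w w' h => (l.2 w w' (B.h0 w w' h) (B.h1 w w' h)).2
    rw [box_e, box_e, ih hφ (k + 1) (by omega)]
    unfold DMod
    rw [r0.union_univ B.tot B.sur r1, r0.inter_ne B.tot B.sur r1, B.hd _ _ r0.compl k (by omega)]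

lemma Bis.sat_rho (B : Bis P M d V d' V' R) (φ : Fm) (hφ : φ.vars ⊆ P) (hd : depth φ ≤ M) :
    rho ∈ ext d V φ ↔ rho ∈ ext d' V' φ := by
  induction φ with
  | pos p => exact B.hr p (hφ rfl)
  | neg p => exact not_congr (B.hr p (hφ rfl))
  | bot => exact Iff.rfl
  | top => exact Iff.rfl
  | and φ ψ ih1 ih2 =>
    simp only [depth] at hd
    exact and_congr (ih1 (fun p hp => hφ (Or.inl hp)) (by omega))
      (ih2 (fun p hp => hφ (Or.inr hp)) (by omega))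
  | or φ ψ ih1 ih2 =>
    simp only [depth] at hd
    exact or_congr (ih1 (fun p hp => hφ (Or.inl hp)) (by omega))
      (ih2 (fun p hp => hφ (Or.inr hp)) (by omega))
  | dia φ _ =>
    simp only [depth] at hd
    rw [dia_rho, dia_rho]
    exact B.sat_e φ hφ 0 (by omega)
  | box φ _ =>
    simp only [depth] at hd
    rw [box_rho, box_rho]
    exact B.sat_e φ hφ 0 (by omega)

/-- The target point: the root for `κ = true`, the point `e 0` for `κ = false`. -/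
def pt {W : Type} (κ : Bool) : Pt W := if κ then rho else e 0

lemma Bis.sat_pt (κ : Bool) (B : Bis P M d V d' V' R) (φ : Fm) (hφ : φ.vars ⊆ P)
    (hd : depth φ ≤ M) : pt κ ∈ ext d V φ ↔ pt κ ∈ ext d' V' φ := by
  cases κ with
  | true => exact B.sat_rho φ hφ hd
  | false => exact B.sat_e φ hφ 0 (by simpa using hd)

/-- Shift of the bits. -/
def shd (i : ℕ) (d : Set W → ℕ → Prop) : Set W → ℕ → Prop := fun a k => d a (i + k)

/-- Shift of the valuation. -/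
def shV (i : ℕ) (V : Pt W → ℕ → Prop) : Pt W → ℕ → Prop
  | e k => V (e (i + k))
  | z => V z
  | w0 w => V (w0 w)
  | w1 w => V (w1 w)
  | rho => V rho

lemma sh_loc (i : ℕ) (d : Set W → ℕ → Prop) (V : Pt W → ℕ → Prop) (φ : Fm) :
    (z ∈ ext (shd i d) (shV i V) φ ↔ z ∈ ext d V φ) ∧
    ∀ w : W, (w0 w ∈ ext (shd i d) (shV i V) φ ↔ w0 w ∈ ext d V φ) ∧
      (w1 w ∈ ext (shd i d) (shV i V) φ ↔ w1 w ∈ ext d V φ) := by
  have l := loc_iff (shd i d) (shV i V) d V univ (fun _ _ => Iff.rfl) φ (subset_univ _)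
  exact ⟨l.1, fun w => l.2 w w (fun _ _ => Iff.rfl) (fun _ _ => Iff.rfl)⟩

lemma sh_e (i : ℕ) (d : Set W → ℕ → Prop) (V : Pt W → ℕ → Prop) (φ : Fm) :
    ∀ k, e k ∈ ext (shd i d) (shV i V) φ ↔ e (i + k) ∈ ext d V φ := by
  induction φ with
  | pos p => exact fun k => Iff.rfl
  | neg p => exact fun k => Iff.rfl
  | bot => exact fun k => Iff.rfl
  | top => exact fun k => Iff.rfl
  | and φ ψ ih1 ih2 => exact fun k => and_congr (ih1 k) (ih2 k)
  | or φ ψ ih1 ih2 => exact fun k => or_congr (ih1 k) (ih2 k)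
  | dia φ ih =>
    intro k
    rw [dia_e, dia_e, ih (k + 1)]
    have l := sh_loc i d V φ
    have e0 : {w | w0 w ∈ ext (shd i d) (shV i V) φ} = {w | w0 w ∈ ext d V φ} := by
      ext w; exact (l.2 w).1
    have e1 : {w | w1 w ∈ ext (shd i d) (shV i V) φ} = {w | w1 w ∈ ext d V φ} := by
      ext w; exact (l.2 w).2
    rw [e0, e1]
    rfl
  | box φ ih =>
    intro k
    rw [box_e, box_e, ih (k + 1)]
    have l := sh_loc i d V φ
    have e0 : {w | w0 w ∈ ext (shd i d) (shV i V) φ} = {w | w0 w ∈ ext d V φ} := by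
      ext w; exact (l.2 w).1
    have e1 : {w | w1 w ∈ ext (shd i d) (shV i V) φ} = {w | w1 w ∈ ext d V φ} := by
      ext w; exact (l.2 w).2
    rw [e0, e1]
    rfl

end Pool.Agent.H674.MML
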