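import Mathlib

/-!
# Monotone modal logics: formulas, logics, interpolation properties

Formulas are built from the literals `p`, `¬ p`, the constants, conjunction, disjunction, the
diamond and the box. Negation of compound formulas is defined by the duality laws.
-/

set_option autoImplicit false

namespace Pool.Agent.H674.MML

/-- Modal formulas; the variables are indexed by the natural numbers. -/
inductive Fm : Type
  /-- the literal `p` -/
  | pos (p : ℕ) : Fm
  /-- the literal `¬ p` -/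
  | neg (p : ℕ) : Fm
  | bot : Fm
  | top : Fm
  | and (φ ψ : Fm) : Fm
  | or (φ ψ : Fm) : Fm
  | dia (φ : Fm) : Fm
  | box (φ : Fm) : Fm

namespace Fm

/-- Negation, defined by the duality laws. -/
def not : Fm → Fm
  | pos p => neg p
  | neg p => pos p
  | bot => top
  | top => bot
  | and φ ψ => or φ.not ψ.not
  | or φ ψ => and φ.not ψ.not
  | dia φ => box φ.not
  | box φ => dia φ.not

/-- `φ → ψ` abbreviates `¬ φ ∨ ψ`. -/
def imp (φ ψ : Fm) : Fm := or φ.not ψ

/-- `φ ↔ ψ`. -/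
def iff (φ ψ : Fm) : Fm := and (imp φ ψ) (imp ψ φ)

/-- Uniform substitution of `σ p` for the variable `p`. -/
def subst (σ : ℕ → Fm) : Fm → Fm
  | pos p => σ p
  | neg p => (σ p).not
  | bot => bot
  | top => top
  | and φ ψ => and (φ.subst σ) (ψ.subst σ)
  | or φ ψ => or (φ.subst σ) (ψ.subst σ)
  | dia φ => dia (φ.subst σ)
  | box φ => box (φ.subst σ)

/-- The set of variables occurring in a formula. -/
def vars : Fm → Set ℕ
  | pos p => {p}
  | neg p => {p}
  | bot => ∅
  | top => ∅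
  | and φ ψ => φ.vars ∪ ψ.vars
  | or φ ψ => φ.vars ∪ ψ.vars
  | dia φ => φ.vars
  | box φ => φ.vars

/-- The set of literals occurring in a formula; `(p, true)` stands for the literal `p` and
`(p, false)` for the literal `¬ p`. -/
def lits : Fm → Set (ℕ × Bool)
  | pos p => {(p, true)}
  | neg p => {(p, false)}
  | bot => ∅
  | top => ∅
  | and φ ψ => φ.lits ∪ ψ.lits
  | or φ ψ => φ.lits ∪ ψ.lits
  | dia φ => φ.lits
  | box φ => φ.lits

/-- A formula without modal operators. -/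
def ModalFree : Fm → Prop
  | pos _ => True
  | neg _ => True
  | bot => True
  | top => True
  | and φ ψ => φ.ModalFree ∧ ψ.ModalFree
  | or φ ψ => φ.ModalFree ∧ ψ.ModalFree
  | dia _ => False
  | box _ => False

/-- The classical truth value of a formula without modal operators under a truth assignment (on
formulas with modal operators the value is irrelevant). -/
def eval (v : ℕ → Prop) : Fm → Prop
  | pos p => v p
  | neg p => ¬ v p
  | bot => False
  | top => True
  | and φ ψ => φ.eval v ∧ ψ.eval v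
  | or φ ψ => φ.eval v ∨ ψ.eval v
  | dia _ => False
  | box _ => False

/-- A formula is positive if it contains no negated variable. -/
def Positive (φ : Fm) : Prop := ∀ p : ℕ, (p, false) ∉ φ.lits

end Fm

open Fm

/-- A monotone modal logic: a set of formulas which contains the classical tautologies and
`◇ p → ◇ (p ∨ q)` and is closed under modus ponens, uniform substitution and the rule
from `φ ↔ ψ` infer `◇ φ ↔ ◇ ψ`. -/
structure MonotoneLogic (Λ : Set Fm) : Prop where
  taut : ∀ φ : Fm, φ.ModalFree → (∀ v : ℕ → Prop, φ.eval v) → φ ∈ Λ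
  mono : imp (dia (pos 0)) (dia (or (pos 0) (pos 1))) ∈ Λ
  mp : ∀ φ ψ : Fm, φ ∈ Λ → imp φ ψ ∈ Λ → ψ ∈ Λ
  subst : ∀ (φ : Fm) (σ : ℕ → Fm), φ ∈ Λ → φ.subst σ ∈ Λ
  re : ∀ φ ψ : Fm, Fm.iff φ ψ ∈ Λ → Fm.iff (dia φ) (dia ψ) ∈ Λ

/-- Craig interpolation property. -/
def CIP (Λ : Set Fm) : Prop :=
  ∀ φ ψ : Fm, imp φ ψ ∈ Λ →
    ∃ χ : Fm, χ.vars ⊆ φ.vars ∩ ψ.vars ∧ imp φ χ ∈ Λ ∧ imp χ ψ ∈ Λ

/-- Lyndon interpolation property. -/
def LIP (Λ : Set Fm) : Prop :=
  ∀ φ ψ : Fm, imp φ ψ ∈ Λ →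
    ∃ χ : Fm, χ.lits ⊆ φ.lits ∩ ψ.lits ∧ imp φ χ ∈ Λ ∧ imp χ ψ ∈ Λ

/-- `φ` is monotone in `Λ`: the formula `φ(p₁, …, pₙ) → φ(p₁ ∨ q₁, …, pₙ ∨ qₙ)` belongs to `Λ`
for (some, equivalently all) distinct variables `q₁, …, qₙ` which do not occur in `φ`. -/
def MonotoneIn (Λ : Set Fm) (φ : Fm) : Prop :=
  ∃ ν : ℕ → ℕ, Function.Injective ν ∧ (∀ p ∈ φ.vars, ν p ∉ φ.vars) ∧
    imp φ (φ.subst fun p => or (pos p) (pos (ν p))) ∈ Λ

/-- Lyndon positivity property: every formula which is monotone in `Λ` is `Λ`-equivalent to a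
positive formula. -/
def LPP (Λ : Set Fm) : Prop :=
  ∀ φ : Fm, MonotoneIn Λ φ → ∃ χ : Fm, χ.Positive ∧ Fm.iff φ χ ∈ Λ

end Pool.Agent.H674.MML
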