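import Pool.Agent.H674.MML.Bis

/-!
# Separation by finitely many formulas, expressible sets, extraction of information
-/

set_option autoImplicit false

namespace Pool.Agent.H674.MML

open Fm Set Pt

section lattice

variable {α ι : Type*} (S : Set (Set α))

lemma biUnion_mem' (h0 : ∅ ∈ S) (hu : ∀ a ∈ S, ∀ b ∈ S, a ∪ b ∈ S) {s : Set ι} (hs : s.Finite)
    (f : ι → Set α) (hf : ∀ i ∈ s, f i ∈ S) : (⋃ i ∈ s, f i) ∈ S := by
  induction s, hs using Set.Finite.induction_on with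
  | empty => simpa using h0
  | @insert a s _ _ ih =>
    rw [biUnion_insert]
    exact hu _ (hf a (mem_insert _ _)) _ (ih fun i hi => hf i (mem_insert_of_mem _ hi))

lemma biInter_mem' (h1 : univ ∈ S) (hi : ∀ a ∈ S, ∀ b ∈ S, a ∩ b ∈ S) {s : Set ι} (hs : s.Finite)
    (f : ι → Set α) (hf : ∀ i ∈ s, f i ∈ S) : (⋂ i ∈ s, f i) ∈ S := by
  induction s, hs using Set.Finite.induction_on with
  | empty => simpa using h1
  | @insert a s _ _ ih =>
    rw [biInter_insert]
    exact hi _ (hf a (mem_insert _ _)) _ (ih fun i hi => hf i (mem_insert_of_mem _ hi))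

lemma exists_sep {I : Type*} [Finite I] (h0 : ∅ ∈ S) (h1 : univ ∈ S)
    (hu : ∀ a ∈ S, ∀ b ∈ S, a ∪ b ∈ S) (hi : ∀ a ∈ S, ∀ b ∈ S, a ∩ b ∈ S) (inv : α → I)
    (hinv : ∀ s ∈ S, ∀ x y, inv x = inv y → (x ∈ s ↔ y ∈ s)) (A B : Set α)
    (h : ∀ x ∈ A, ∀ y, y ∉ B → ∃ s ∈ S, x ∈ s ∧ y ∉ s) : ∃ s ∈ S, A ⊆ s ∧ s ⊆ B := by
  classical
  have key : ∀ i j : I, ∃ s ∈ S, i ∈ inv '' A → j ∈ inv '' Bᶜ →
      (∀ x, inv x = i → x ∈ s) ∧ (∀ y, inv y = j → y ∉ s) := by
    intro i j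
    by_cases hi' : i ∈ inv '' A
    · by_cases hj' : j ∈ inv '' Bᶜ
      · obtain ⟨x, hx, rfl⟩ := hi'
        obtain ⟨y, hy, rfl⟩ := hj'
        obtain ⟨s, hs, hxs, hys⟩ := h x hx y hy
        exact ⟨s, hs, fun _ _ => ⟨fun x' hx' => (hinv s hs x' x hx').2 hxs,
          fun y' hy' hc => hys ((hinv s hs y' y hy').1 hc)⟩⟩
      · exact ⟨∅, h0, fun _ h' => absurd h' hj'⟩
    · exact ⟨∅, h0, fun h' => absurd h' hi'⟩
  choose s hs hs' using key
  refine ⟨⋃ i ∈ inv '' A, ⋂ j ∈ inv '' Bᶜ, s i j, ?_, ?_, ?_⟩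
  · exact biUnion_mem' S h0 hu (toFinite _) _ fun i _ =>
      biInter_mem' S h1 hi (toFinite _) _ fun j _ => hs i j
  · intro x hx
    refine mem_biUnion (mem_image_of_mem inv hx) ?_
    rw [mem_iInter₂]
    exact fun j hj => (hs' _ j (mem_image_of_mem inv hx) hj).1 x rfl
  · intro y hy
    by_contra hyB
    rw [mem_iUnion₂] at hy
    obtain ⟨i, hi, hy⟩ := hy
    rw [mem_iInter₂] at hy
    have hj : inv y ∈ inv '' Bᶜ := mem_image_of_mem inv hyB
    exact (hs' i _ hi hj).2 y rfl (hy _ hj)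

lemma mem_of_up [Finite ι] (h0 : ∅ ∈ S) (h1 : univ ∈ S)
    (hu : ∀ a ∈ S, ∀ b ∈ S, a ∪ b ∈ S) (hi : ∀ a ∈ S, ∀ b ∈ S, a ∩ b ∈ S) (g : ι → Set α)
    (hg : ∀ i, g i ∈ S) (C : Set α) (hC : ∀ a b, (∀ i, a ∈ g i → b ∈ g i) → a ∈ C → b ∈ C) :
    C ∈ S := by
  classical
  have h := exists_sep (S ∩ {s | ∀ x y, (∀ i, x ∈ g i ↔ y ∈ g i) → (x ∈ s ↔ y ∈ s)})
    (I := ι → Prop) ⟨h0, fun _ _ _ => Iff.rfl⟩ ⟨h1, fun _ _ _ => Iff.rfl⟩
    (fun a ha b hb => ⟨hu a ha.1 b hb.1, fun x y hxy => or_congr (ha.2 x y hxy) (hb.2 x y hxy)⟩)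
    (fun a ha b hb => ⟨hi a ha.1 b hb.1, fun x y hxy => and_congr (ha.2 x y hxy) (hb.2 x y hxy)⟩)
    (fun x i => x ∈ g i)
    (fun s hs x y hxy => hs.2 x y fun i => by
      have := congrFun hxy i
      exact iff_of_eq this) C C ?_
  · obtain ⟨s, hs, h2, h3⟩ := h
    rw [Subset.antisymm h2 h3]
    exact hs.1
  · intro x hx y hy
    by_contra hcon
    push Not at hcon
    exact hy (hC x y (fun i hxi => hcon (g i) ⟨hg i, fun x y hxy => hxy i⟩ hxi) hx)

end lattice

/-- The atom of a point of the base set. -/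
def atm {W : Type} (V : Pt W → ℕ → Prop) (w : W) : (ℕ → Prop) × (ℕ → Prop) :=
  (V (w0 w), V (w1 w))

/-- All literals in `L` true at `a` are true at `b`. -/
def Lle (L : Set (ℕ × Bool)) (a b : ℕ → Prop) : Prop :=
  ∀ p, ((p, true) ∈ L → a p → b p) ∧ ((p, false) ∈ L → b p → a p)

def AtLe (L : Set (ℕ × Bool)) (a b : (ℕ → Prop) × (ℕ → Prop)) : Prop :=
  Lle L a.1 b.1 ∧ Lle L a.2 b.2

lemma Lle.refl (L : Set (ℕ × Bool)) (a : ℕ → Prop) : Lle L a a :=
  fun _ => ⟨fun _ h => h, fun _ h => h⟩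

lemma Lle.trans {L : Set (ℕ × Bool)} {a b c : ℕ → Prop} (h1 : Lle L a b) (h2 : Lle L b c) :
    Lle L a c :=
  fun p => ⟨fun h h' => (h2 p).1 h ((h1 p).1 h h'), fun h h' => (h1 p).2 h ((h2 p).2 h h')⟩

lemma AtLe.refl (L : Set (ℕ × Bool)) (a : (ℕ → Prop) × (ℕ → Prop)) : AtLe L a a :=
  ⟨Lle.refl L _, Lle.refl L _⟩

lemma AtLe.trans {L : Set (ℕ × Bool)} {a b c : (ℕ → Prop) × (ℕ → Prop)} (h1 : AtLe L a b)
    (h2 : AtLe L b c) : AtLe L a c := ⟨h1.1.trans h2.1, h1.2.trans h2.2⟩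

/-- The literal as a formula. -/
def lit (l : ℕ × Bool) : Fm := if l.2 then pos l.1 else neg l.1

/-- Truth of a literal. -/
def tl (l : ℕ × Bool) (a : ℕ → Prop) : Prop := if l.2 then a l.1 else ¬ a l.1

lemma mem_lit {W : Type} (d : Set W → ℕ → Prop) (V : Pt W → ℕ → Prop) (l : ℕ × Bool) (x : Pt W) :
    x ∈ ext d V (lit l) ↔ tl l (V x) := by
  unfold lit tl
  split_ifs <;> simp

lemma lits_lit (l : ℕ × Bool) : (lit l).lits = {l} := by
  obtain ⟨p, b⟩ := l
  cases b <;> rfl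

@[simp] lemma depth_lit (l : ℕ × Bool) : depth (lit l) = 0 := by
  unfold lit
  split_ifs <;> rfl

lemma lle_iff {L : Set (ℕ × Bool)} {a b : ℕ → Prop} : Lle L a b ↔ ∀ l ∈ L, tl l a → tl l b := by
  constructor
  · rintro h ⟨p, b⟩ hl
    cases b with
    | true => simpa [tl] using (h p).1 hl
    | false => simpa [tl] using not_imp_not.2 ((h p).2 hl)
  · intro h p
    refine ⟨fun hl => by simpa [tl] using h _ hl, fun hl h' => ?_⟩
    have := h _ hl
    simp only [tl, Bool.false_eq_true, if_false] at this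
    by_contra h2
    exact this h2 h'

/-- Constants. -/
def T1 : Fm := dia bot
def T2 : Fm := dia T1
def T3 : Fm := dia T2

section consts

variable {W : Type} (d : Set W → ℕ → Prop) (V : Pt W → ℕ → Prop)

@[simp] lemma T1_z : z ∈ ext d V T1 ↔ True := by simp [T1]
@[simp] lemma T1_w0 (w : W) : w0 w ∈ ext d V T1 ↔ False := by simp [T1]
@[simp] lemma T1_w1 (w : W) : w1 w ∈ ext d V T1 ↔ False := by simp [T1]
@[simp] lemma T1_e (i : ℕ) : e i ∈ ext d V T1 ↔ False := by simp [T1]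
@[simp] lemma T1_rho : rho ∈ ext d V T1 ↔ False := by simp [T1]
@[simp] lemma T2_z : z ∈ ext d V T2 ↔ True := by simp [T2]
@[simp] lemma T2_w0 (w : W) : w0 w ∈ ext d V T2 ↔ True := by simp [T2]
@[simp] lemma T2_w1 (w : W) : w1 w ∈ ext d V T2 ↔ False := by simp [T2]
@[simp] lemma T2_e (i : ℕ) : e i ∈ ext d V T2 ↔ False := by simp [T2]
@[simp] lemma T2_rho : rho ∈ ext d V T2 ↔ False := by simp [T2]
@[simp] lemma T3_z : z ∈ ext d V T3 ↔ True := by simp [T3]
@[simp] lemma T3_w0 (w : W) : w0 w ∈ ext d V T3 ↔ True := by simp [T3]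
@[simp] lemma T3_w1 (w : W) : w1 w ∈ ext d V T3 ↔ True := by simp [T3]
@[simp] lemma T3_e (i : ℕ) : e i ∈ ext d V T3 ↔ False := by simp [T3]
@[simp] lemma T3_rho : rho ∈ ext d V T3 ↔ False := by simp [T3]

lemma T1_lits : T1.lits = ∅ := rfl
lemma T2_lits : T2.lits = ∅ := rfl
lemma T3_lits : T3.lits = ∅ := rfl
lemma T1n_lits : T1.not.lits = ∅ := rfl
lemma T2n_lits : T2.not.lits = ∅ := rfl
lemma T3n_lits : T3.not.lits = ∅ := rfl
@[simp] lemma T1_depth : depth T1 = 1 := rfl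
@[simp] lemma T2_depth : depth T2 = 2 := rfl
@[simp] lemma T3_depth : depth T3 = 3 := rfl
@[simp] lemma T1n_depth : depth T1.not = 1 := rfl
@[simp] lemma T2n_depth : depth T2.not = 2 := rfl
@[simp] lemma T3n_depth : depth T3.not = 3 := rfl

end consts

/-- `C` is expressed by a formula with literals in `L`. -/
def Expr (L : Set (ℕ × Bool)) : Set (Set ((ℕ → Prop) × (ℕ → Prop))) :=
  {C | ∃ θ : Fm, θ.lits ⊆ L ∧ depth θ ≤ 2 ∧
    ∀ (W : Type) (d : Set W → ℕ → Prop) (V : Pt W → ℕ → Prop) (w : W),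
      (w0 w ∈ ext d V θ ↔ atm V w ∈ C) ∧ (w1 w ∈ ext d V θ ↔ atm V w ∈ C)}

lemma expr_up {L : Set (ℕ × Bool)} (hL : L.Finite) (C : Set ((ℕ → Prop) × (ℕ → Prop)))
    (hC : ∀ a b, AtLe L a b → a ∈ C → b ∈ C) : C ∈ Expr L := by
  have := hL.to_subtype
  refine mem_of_up (ι := L × Bool) (Expr L) ?_ ?_ ?_ ?_
    (fun i => {a | tl i.1.1 (if i.2 then a.1 else a.2)}) ?_ C ?_
  · exact ⟨bot, empty_subset _, by simp [depth], fun W d V w => by simp⟩
  · exact ⟨top, empty_subset _, by simp [depth], fun W d V w => by simp⟩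
  · rintro a ⟨θ, h1, h2, h3⟩ b ⟨η, h4, h5, h6⟩
    refine ⟨Fm.or θ η, union_subset h1 h4, by simp only [depth]; omega, fun W d V w => ?_⟩
    exact ⟨or_congr (h3 W d V w).1 (h6 W d V w).1, or_congr (h3 W d V w).2 (h6 W d V w).2⟩
  · rintro a ⟨θ, h1, h2, h3⟩ b ⟨η, h4, h5, h6⟩
    refine ⟨Fm.and θ η, union_subset h1 h4, by simp only [depth]; omega, fun W d V w => ?_⟩
    exact ⟨and_congr (h3 W d V w).1 (h6 W d V w).1, and_congr (h3 W d V w).2 (h6 W d V w).2⟩
  · rintro ⟨⟨l, hl⟩, b⟩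
    cases b with
    | true =>
      refine ⟨Fm.or (Fm.and T2 (lit l)) (Fm.and T2.not (dia (Fm.and (lit l) T1.not))), ?_, ?_, ?_⟩
      · simp only [Fm.lits, T2_lits, T2n_lits, T1n_lits, lits_lit]
        simpa using hl
      · simp [depth]
      · intro W d V w
        simp [mem_lit, atm]
    | false =>
      refine ⟨Fm.or (Fm.and T2 (dia (Fm.and (lit l) T1.not))) (Fm.and T2.not (lit l)), ?_, ?_, ?_⟩
      · simp only [Fm.lits, T2_lits, T2n_lits, T1n_lits, lits_lit]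
        simpa using hl
      · simp [depth]
      · intro W d V w
        simp [mem_lit, atm]
  · intro a b h ha
    refine hC a b ⟨?_, ?_⟩ ha
    · rw [lle_iff]
      exact fun l hl => h ⟨⟨l, hl⟩, true⟩
    · rw [lle_iff]
      exact fun l hl => h ⟨⟨l, hl⟩, false⟩

/-- Reading further down the chain. -/
def nx : ℕ → Fm → Fm
  | 0, θ => θ
  | k + 1, θ => dia (Fm.or (nx k θ) T3)

lemma nx_lits (k : ℕ) (θ : Fm) : (nx k θ).lits = θ.lits := by
  induction k with
  | zero => rfl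
  | succ k ih => simp [nx, Fm.lits, ih, T3_lits]

lemma nx_depth (k : ℕ) (θ : Fm) : depth (nx k θ) ≤ max (depth θ) 3 + k := by
  induction k with
  | zero => simp [nx]
  | succ k ih => simp only [nx, depth, T3_depth]; omega

/-- Reading the bits. -/
def md (θ : Fm) : Fm := dia (Fm.or θ T3.not)
def mdd (θ : Fm) : Fm := box (Fm.and θ T3)
/-- Different formulas on the two copies. -/
def place (θ η : Fm) : Fm := Fm.or (Fm.and T2 θ) (Fm.and T2.not η)

lemma place_depth (θ η : Fm) : depth (place θ η) = max 2 (max (depth θ) (depth η)) := by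
  simp only [place, depth, T2_depth, T2n_depth]
  omega

lemma place_lits (θ η : Fm) : (place θ η).lits = θ.lits ∪ η.lits := by
  simp [place, Fm.lits, T2_lits, T2n_lits]

lemma md_depth (θ : Fm) : depth (md θ) = max (depth θ) 3 + 1 := by
  simp [md, depth]

lemma md_lits (θ : Fm) : (md θ).lits = θ.lits := by
  simp [md, Fm.lits, T3n_lits]

lemma mdd_depth (θ : Fm) : depth (mdd θ) = max (depth θ) 3 + 1 := by
  simp [mdd, depth]

lemma mdd_lits (θ : Fm) : (mdd θ).lits = θ.lits := by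
  simp [mdd, Fm.lits, T3_lits]

section reading

variable {W : Type} [Nonempty W] (d : Set W → ℕ → Prop) (V : Pt W → ℕ → Prop)

lemma mod_univ (i : ℕ) : Mod d i univ univ := by
  refine ⟨by simp, Or.inl ?_⟩
  simp

lemma mem_nx (k : ℕ) (θ : Fm) : ∀ i, e i ∈ ext d V (nx k θ) ↔ e (i + k) ∈ ext d V θ := by
  induction k with
  | zero => exact fun i => Iff.rfl
  | succ k ih =>
    intro i
    simp only [nx, dia_e, ext_or, T3_w0, T3_w1, or_true, T3_e, or_false]
    rw [ih (i + 1)]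
    have : Mod d i {w : W | True} {w : W | True} := mod_univ d i
    rw [show i + 1 + k = i + (k + 1) by omega]
    exact and_iff_right this

omit [Nonempty W] in
lemma mem_md (θ : Fm) (i : ℕ) : e i ∈ ext d V (md θ) ↔
    Mod d i {w | w0 w ∈ ext d V θ} {w | w1 w ∈ ext d V θ} := by
  simp [md]

omit [Nonempty W] in
lemma mem_mdd (θ : Fm) (i : ℕ) : e i ∈ ext d V (mdd θ) ↔
    DMod d i {w | w0 w ∈ ext d V θ} {w | w1 w ∈ ext d V θ} := by
  simp [mdd]

lemma mod_self (a : Set W) (i : ℕ) : Mod d i a a ↔ a = univ := by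
  unfold Mod
  rw [union_self, inter_self]
  constructor
  · exact fun h => h.1
  · rintro rfl
    exact ⟨rfl, Or.inl univ_nonempty⟩

lemma dmod_self (a : Set W) (i : ℕ) : DMod d i a a ↔ a.Nonempty := by
  unfold DMod
  rw [union_self, inter_self]
  constructor
  · rintro (h | ⟨h, _⟩)
    · exact h
    · rw [h]; exact univ_nonempty
  · exact Or.inl

omit [Nonempty W] in
lemma mod_compl (a : Set W) (i : ℕ) : Mod d i a aᶜ ↔ d a i := by
  simp [Mod]

omit [Nonempty W] in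
lemma dmod_compl (a : Set W) (i : ℕ) : DMod d i aᶜ a ↔ ¬ d a i := by
  simp [DMod]

end reading

/-- Information read off from formulas with literals in `L`. -/
structure Rel {W W' : Type} (L : Set (ℕ × Bool)) (M : ℕ) (d : Set W → ℕ → Prop)
    (V : Pt W → ℕ → Prop) (d' : Set W' → ℕ → Prop) (V' : Pt W' → ℕ → Prop) : Prop where
  he : ∀ k ≤ M, Lle L (V (e k)) (V' (e k))
  hz : Lle L (V z) (V' z)
  tot : ∀ w, ∃ w', AtLe L (atm V w) (atm V' w')
  sur : ∀ w', ∃ w, AtLe L (atm V w) (atm V' w')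
  hd : ∀ a a', Rig (fun w w' => AtLe L (atm V w) (atm V' w')) a a' → ∀ k < M, d a k ↔ d' a' k

lemma extract {W W' : Type} [Nonempty W] [Nonempty W'] {L : Set (ℕ × Bool)} (hL : L.Finite)
    (M : ℕ) (d : Set W → ℕ → Prop) (V : Pt W → ℕ → Prop) (d' : Set W' → ℕ → Prop)
    (V' : Pt W' → ℕ → Prop)
    (H : ∀ θ : Fm, θ.lits ⊆ L → depth θ ≤ M + 4 → e 0 ∈ ext d V θ → e 0 ∈ ext d' V' θ) :
    Rel L M d V d' V' := by
  -- up-closures
  have hup : ∀ a : Set W, ∀ x y : (ℕ → Prop) × (ℕ → Prop), AtLe L x y →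
      x ∈ {b | ∃ w ∈ a, AtLe L (atm V w) b} → y ∈ {b | ∃ w ∈ a, AtLe L (atm V w) b} := by
    rintro a x y hxy ⟨w, hw, h⟩
    exact ⟨w, hw, h.trans hxy⟩
  have tot : ∀ w, ∃ w', AtLe L (atm V w) (atm V' w') := by
    intro w
    obtain ⟨θ, h1, h2, h3⟩ := expr_up hL _ (hup {w})
    have h4 : e 0 ∈ ext d V (mdd θ) := by
      rw [mem_mdd]
      have e1 : {v | w1 v ∈ ext d V θ} = {v | w0 v ∈ ext d V θ} := by
        ext v; exact (h3 W d V v).2.trans (h3 W d V v).1.symm
      rw [e1, dmod_self]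
      exact ⟨w, (h3 W d V w).1.2 ⟨w, rfl, AtLe.refl L _⟩⟩
    have h5 := H (mdd θ) (by rwa [mdd_lits]) (by rw [mdd_depth]; omega) h4
    rw [mem_mdd] at h5
    have e1 : {v | w1 v ∈ ext d' V' θ} = {v | w0 v ∈ ext d' V' θ} := by
      ext v; exact (h3 W' d' V' v).2.trans (h3 W' d' V' v).1.symm
    rw [e1, dmod_self] at h5
    obtain ⟨w', hw'⟩ := h5
    obtain ⟨w2, rfl, h6⟩ := (h3 W' d' V' w').1.1 hw'
    exact ⟨w', h6⟩
  have sur : ∀ w', ∃ w, AtLe L (atm V w) (atm V' w') := by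
    intro w'
    obtain ⟨θ, h1, h2, h3⟩ := expr_up hL _ (hup univ)
    have h4 : e 0 ∈ ext d V (md θ) := by
      rw [mem_md]
      have e1 : {v | w1 v ∈ ext d V θ} = {v | w0 v ∈ ext d V θ} := by
        ext v; exact (h3 W d V v).2.trans (h3 W d V v).1.symm
      rw [e1, mod_self, eq_univ_iff_forall]
      exact fun w => (h3 W d V w).1.2 ⟨w, trivial, AtLe.refl L _⟩
    have h5 := H (md θ) (by rwa [md_lits]) (by rw [md_depth]; omega) h4
    rw [mem_md] at h5
    have e1 : {v | w1 v ∈ ext d' V' θ} = {v | w0 v ∈ ext d' V' θ} := by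
      ext v; exact (h3 W' d' V' v).2.trans (h3 W' d' V' v).1.symm
    rw [e1, mod_self, eq_univ_iff_forall] at h5
    obtain ⟨w2, _, h6⟩ := (h3 W' d' V' w').1.1 (h5 w')
    exact ⟨w2, h6⟩
  refine ⟨?_, ?_, tot, sur, ?_⟩
  · intro k hk
    rw [lle_iff]
    intro l hl h
    have h1 : e 0 ∈ ext d V (nx k (lit l)) := by
      rw [mem_nx, zero_add, mem_lit]; exact h
    have h2 := H _ (by rw [nx_lits, lits_lit]; simpa using hl)
      (by have := nx_depth k (lit l); rw [depth_lit] at this; omega) h1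
    rwa [mem_nx, zero_add, mem_lit] at h2
  · rw [lle_iff]
    intro l hl h
    have key : ∀ (W₁ : Type) [Nonempty W₁] (d₁ : Set W₁ → ℕ → Prop) (V₁ : Pt W₁ → ℕ → Prop),
        e 0 ∈ ext d₁ V₁ (md (place (dia (Fm.and (lit l) T1)) (dia (dia (Fm.and (lit l) T1))))) ↔
          tl l (V₁ z) := by
      intro W₁ _ d₁ V₁
      rw [mem_md]
      simp only [place, ext_or, ext_and, T2_w0, T2_w1, mem_not, dia_w0, dia_w1, T1_w1, T1_z,
        mem_lit, and_false, false_or, and_true, true_and, not_true, not_false_eq_true, or_false,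
        false_and]
      rw [mod_self]
      by_cases h : tl l (V₁ z)
      · simp [h]
      · simp [h, empty_ne_univ]
    have h2 := H _ (by
      rw [md_lits, place_lits]
      simp only [Fm.lits, lits_lit, T1_lits]
      simpa using hl) (by
      rw [md_depth, place_depth]
      simp only [depth, depth_lit, T1_depth]
      omega) ((key W d V).2 h)
    exact (key W' d' V').1 h2
  · intro a a' hr k hk
    obtain ⟨θ, h1, h2, h3⟩ := expr_up hL _ (hup a)
    obtain ⟨η, h4, h5, h6⟩ := expr_up hL _ (hup aᶜ)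
    -- at the first model
    have ea : {w | atm V w ∈ {b | ∃ w ∈ a, AtLe L (atm V w) b}} = a := by
      ext w
      constructor
      · rintro ⟨v, hv, hvw⟩
        obtain ⟨w', hw'⟩ := tot w
        exact (hr w w' hw').2 ((hr v w' (hvw.trans hw')).1 hv)
      · exact fun hw => ⟨w, hw, AtLe.refl L _⟩
    have eb : {w | atm V w ∈ {b | ∃ w ∈ aᶜ, AtLe L (atm V w) b}} = aᶜ := by
      ext w
      constructor
      · rintro ⟨v, hv, hvw⟩
        obtain ⟨w', hw'⟩ := tot w
        exact fun hw => hv ((hr v w' (hvw.trans hw')).2 ((hr w w' hw').1 hw))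
      · exact fun hw => ⟨w, hw, AtLe.refl L _⟩
    have ea' : {w | atm V' w ∈ {b | ∃ w ∈ a, AtLe L (atm V w) b}} = a' := by
      ext w'
      constructor
      · rintro ⟨v, hv, hvw⟩
        exact (hr v w' hvw).1 hv
      · intro hw'
        obtain ⟨w, hw⟩ := sur w'
        exact ⟨w, (hr w w' hw).2 hw', hw⟩
    have eb' : {w | atm V' w ∈ {b | ∃ w ∈ aᶜ, AtLe L (atm V w) b}} = a'ᶜ := by
      ext w'
      constructor
      · rintro ⟨v, hv, hvw⟩
        exact fun hw' => hv ((hr v w' hvw).2 hw')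
      · intro hw'
        obtain ⟨w, hw⟩ := sur w'
        exact ⟨w, fun h => hw' ((hr w w' hw).1 h), hw⟩
    have rw1 : e k ∈ ext d V (md (place θ η)) ↔ d a k := by
      rw [mem_md]
      have e0 : {w | w0 w ∈ ext d V (place θ η)} = a := by
        rw [← ea]; ext w; simpa [place] using (h3 W d V w).1
      have e1 : {w | w1 w ∈ ext d V (place θ η)} = aᶜ := by
        rw [← eb]; ext w; simpa [place] using (h6 W d V w).2
      rw [e0, e1, mod_compl]
    have rw1' : e k ∈ ext d' V' (md (place θ η)) ↔ d' a' k := by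
      rw [mem_md]
      have e0 : {w | w0 w ∈ ext d' V' (place θ η)} = a' := by
        rw [← ea']; ext w; simpa [place] using (h3 W' d' V' w).1
      have e1 : {w | w1 w ∈ ext d' V' (place θ η)} = a'ᶜ := by
        rw [← eb']; ext w; simpa [place] using (h6 W' d' V' w).2
      rw [e0, e1, mod_compl]
    have rw2 : e k ∈ ext d V (mdd (place η θ)) ↔ ¬ d a k := by
      rw [mem_mdd]
      have e0 : {w | w0 w ∈ ext d V (place η θ)} = aᶜ := by
        rw [← eb]; ext w; simpa [place] using (h6 W d V w).1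
      have e1 : {w | w1 w ∈ ext d V (place η θ)} = a := by
        rw [← ea]; ext w; simpa [place] using (h3 W d V w).2
      rw [e0, e1, dmod_compl]
    have rw2' : e k ∈ ext d' V' (mdd (place η θ)) ↔ ¬ d' a' k := by
      rw [mem_mdd]
      have e0 : {w | w0 w ∈ ext d' V' (place η θ)} = a'ᶜ := by
        rw [← eb']; ext w; simpa [place] using (h6 W' d' V' w).1
      have e1 : {w | w1 w ∈ ext d' V' (place η θ)} = a' := by
        rw [← ea']; ext w; simpa [place] using (h3 W' d' V' w).2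
      rw [e0, e1, dmod_compl]
    have H1 := H (nx k (md (place θ η)))
      (by rw [nx_lits, md_lits, place_lits]; exact union_subset h1 h4)
      (by
        have := nx_depth k (md (place θ η))
        rw [md_depth, place_depth] at this
        omega)
    have H2 := H (nx k (mdd (place η θ)))
      (by rw [nx_lits, mdd_lits, place_lits]; exact union_subset h4 h1)
      (by
        have := nx_depth k (mdd (place η θ))
        rw [mdd_depth, place_depth] at this
        omega)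
    rw [mem_nx, mem_nx, zero_add, rw1, rw1'] at H1
    rw [mem_nx, mem_nx, zero_add, rw2, rw2'] at H2
    exact ⟨H1, fun h => by_contra fun h' => H2 h' h⟩

end Pool.Agent.H674.MML
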