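import Pool.Agent.H674.MML.Sep

/-!
# The logic has Craig interpolation and Lyndon positivity
-/

set_option autoImplicit false

namespace Pool.Agent.H674.MML

open Fm Set Pt

/-- Comparison of two pointed models by formulas with literals in `L`. -/
inductive Cmp {W W' : Type} (L : Set (ℕ × Bool)) (M : ℕ) (d : Set W → ℕ → Prop)
    (V : Pt W → ℕ → Prop) (x : Pt W) (d' : Set W' → ℕ → Prop) (V' : Pt W' → ℕ → Prop)
    (x' : Pt W') : Prop
  | z (h : x = z) (h' : x' = z) (hz : Lle L (V z) (V' z)) : Cmp L M d V x d' V' x'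
  | w0 (w : W) (w' : W') (h : x = w0 w) (h' : x' = w0 w') (hz : Lle L (V z) (V' z))
      (ha : AtLe L (atm V w) (atm V' w')) : Cmp L M d V x d' V' x'
  | w1 (w : W) (w' : W') (h : x = w1 w) (h' : x' = w1 w') (hz : Lle L (V z) (V' z))
      (ha : AtLe L (atm V w) (atm V' w')) : Cmp L M d V x d' V' x'
  | e (i i' : ℕ) (h : x = e i) (h' : x' = e i')
      (hr : Rel L M (shd i d) (shV i V) (shd i' d') (shV i' V')) : Cmp L M d V x d' V' x'
  | rho (h : x = rho) (h' : x' = rho) (hr : Rel L M d V d' V')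
      (hl : Lle L (V rho) (V' rho)) : Cmp L M d V x d' V' x'

lemma cmp {W W' : Type} [Nonempty W] [Nonempty W'] {L : Set (ℕ × Bool)} (hL : L.Finite) (M : ℕ)
    (d : Set W → ℕ → Prop) (V : Pt W → ℕ → Prop) (x : Pt W) (d' : Set W' → ℕ → Prop)
    (V' : Pt W' → ℕ → Prop) (x' : Pt W')
    (H' : ∀ θ : Fm, θ.lits ⊆ L → depth θ ≤ M + 5 → x ∈ ext d V θ → x' ∈ ext d' V' θ) :
    Cmp L M d V x d' V' x' := by
  have c1 := H' T1 (by rw [T1_lits]; exact empty_subset _) (by rw [T1_depth]; omega)
  have c1' := H' T1.not (by rw [T1n_lits]; exact empty_subset _) (by rw [T1n_depth]; omega)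
  have c2 := H' T2 (by rw [T2_lits]; exact empty_subset _) (by rw [T2_depth]; omega)
  have c2' := H' T2.not (by rw [T2n_lits]; exact empty_subset _) (by rw [T2n_depth]; omega)
  have c3 := H' T3 (by rw [T3_lits]; exact empty_subset _) (by rw [T3_depth]; omega)
  have c3' := H' T3.not (by rw [T3n_lits]; exact empty_subset _) (by rw [T3n_depth]; omega)
  have c4 := H' Rr (by rw [Rr_lits]; exact empty_subset _) (by rw [Rr_depth]; omega)
  have c4' := H' Rr.not (by
    have : Rr.not.lits = ∅ := by simp [Rr, Fm.not, Fm.lits, T1, T2, T3]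
    rw [this]; exact empty_subset _) (by rw [depth_not, Rr_depth]; omega)
  have hlit : ∀ l ∈ L, x ∈ ext d V (lit l) → x' ∈ ext d' V' (lit l) := fun l hl =>
    H' (lit l) (by rw [lits_lit]; simpa using hl) (by rw [depth_lit]; omega)
  have hA : ∀ l ∈ L, x ∈ ext d V (dia (Fm.and (lit l) T1.not)) →
      x' ∈ ext d' V' (dia (Fm.and (lit l) T1.not)) := fun l hl =>
    H' _ (by simp only [Fm.lits, lits_lit, T1n_lits]; simpa using hl)
      (by simp only [depth, depth_lit, T1n_depth]; omega)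
  have hB : ∀ l ∈ L, x ∈ ext d V (dia (Fm.and (lit l) T1)) →
      x' ∈ ext d' V' (dia (Fm.and (lit l) T1)) := fun l hl =>
    H' _ (by simp only [Fm.lits, lits_lit, T1_lits]; simpa using hl)
      (by simp only [depth, depth_lit, T1_depth]; omega)
  have hC : ∀ l ∈ L, x ∈ ext d V (dia (dia (Fm.and (lit l) T1))) →
      x' ∈ ext d' V' (dia (dia (Fm.and (lit l) T1))) := fun l hl =>
    H' _ (by simp only [Fm.lits, lits_lit, T1_lits]; simpa using hl)
      (by simp only [depth, depth_lit, T1_depth]; omega)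
  cases x with
  | z =>
    have : x' = z := by
      cases x' with
      | z => rfl
      | w0 w => exact absurd (c1 (by simp)) (by simp)
      | w1 w => exact absurd (c1 (by simp)) (by simp)
      | e i => exact absurd (c1 (by simp)) (by simp)
      | rho => exact absurd (c1 (by simp)) (by simp)
    subst this
    refine Cmp.z rfl rfl ?_
    rw [lle_iff]
    intro l hl
    simpa [mem_lit] using hlit l hl
  | w0 w =>
    have : ∃ w', x' = w0 w' := by
      cases x' with
      | z => exact absurd (c1' (by simp)) (by simp)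
      | w0 w' => exact ⟨w', rfl⟩
      | w1 w => exact absurd (c2 (by simp)) (by simp)
      | e i => exact absurd (c2 (by simp)) (by simp)
      | rho => exact absurd (c2 (by simp)) (by simp)
    obtain ⟨w', rfl⟩ := this
    refine Cmp.w0 w w' rfl rfl ?_ ⟨?_, ?_⟩
    · rw [lle_iff]
      intro l hl
      simpa [mem_lit] using hB l hl
    · rw [lle_iff]
      intro l hl
      simpa [mem_lit, atm] using hlit l hl
    · rw [lle_iff]
      intro l hl
      simpa [mem_lit, atm] using hA l hl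
  | w1 w =>
    have : ∃ w', x' = w1 w' := by
      cases x' with
      | z => exact absurd (c1' (by simp)) (by simp)
      | w0 w' => exact absurd (c2' (by simp)) (by simp)
      | w1 w' => exact ⟨w', rfl⟩
      | e i => exact absurd (c3 (by simp)) (by simp)
      | rho => exact absurd (c3 (by simp)) (by simp)
    obtain ⟨w', rfl⟩ := this
    refine Cmp.w1 w w' rfl rfl ?_ ⟨?_, ?_⟩
    · rw [lle_iff]
      intro l hl
      simpa [mem_lit] using hC l hl
    · rw [lle_iff]
      intro l hl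
      simpa [mem_lit, atm] using hA l hl
    · rw [lle_iff]
      intro l hl
      simpa [mem_lit, atm] using hlit l hl
  | e i =>
    have : ∃ i', x' = e i' := by
      cases x' with
      | z => exact absurd (c3' (by simp)) (by simp)
      | w0 w' => exact absurd (c3' (by simp)) (by simp)
      | w1 w' => exact absurd (c3' (by simp)) (by simp)
      | e i' => exact ⟨i', rfl⟩
      | rho => exact absurd (Rr_rho d' V') ((mem_not _ _ _ _).1 (c4' ((mem_not _ _ _ _).2 (Rr_e d V i))))
    obtain ⟨i', rfl⟩ := this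
    refine Cmp.e i i' rfl rfl (extract hL M _ _ _ _ ?_)
    intro θ h1 h2 h3
    rw [sh_e] at h3 ⊢
    exact H' θ h1 (by omega) h3
  | rho =>
    have : x' = rho := by
      cases x' with
      | z => exact absurd (c4 (Rr_rho d V)) (Rr_z d' V')
      | w0 w' => exact absurd (c4 (Rr_rho d V)) (Rr_w0 d' V' w')
      | w1 w' => exact absurd (c4 (Rr_rho d V)) (Rr_w1 d' V' w')
      | e i' => exact absurd (c4 (Rr_rho d V)) (Rr_e d' V' i')
      | rho => rfl
    subst this
    refine Cmp.rho rfl rfl (extract hL M _ _ _ _ ?_) ?_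
    · intro θ h1 h2 h3
      exact H' (dia θ) h1 (by simp only [depth]; omega) h3
    · rw [lle_iff]
      intro l hl
      simpa [mem_lit] using hlit l hl

/-- forget the values at the root -/
def nr {W : Type} (V : Pt W → ℕ → Prop) : Pt W → ℕ → Prop
  | rho => fun _ => True
  | z => V z
  | w0 w => V (w0 w)
  | w1 w => V (w1 w)
  | e k => V (e k)

lemma nr_e {W : Type} (d : Set W → ℕ → Prop) (V : Pt W → ℕ → Prop) (φ : Fm) :
    ∀ k, e k ∈ ext d (nr V) φ ↔ e k ∈ ext d V φ := by
  induction φ with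
  | pos p => exact fun k => Iff.rfl
  | neg p => exact fun k => Iff.rfl
  | bot => exact fun k => Iff.rfl
  | top => exact fun k => Iff.rfl
  | and φ ψ ih1 ih2 => exact fun k => and_congr (ih1 k) (ih2 k)
  | or φ ψ ih1 ih2 => exact fun k => or_congr (ih1 k) (ih2 k)
  | dia φ ih =>
    intro k
    have l := (loc_iff d (nr V) d V univ (fun _ _ => Iff.rfl) φ (subset_univ _)).2
    have e0 : {w | w0 w ∈ ext d (nr V) φ} = {w | w0 w ∈ ext d V φ} := by
      ext w; exact (l w w (fun _ _ => Iff.rfl) (fun _ _ => Iff.rfl)).1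
    have e1 : {w | w1 w ∈ ext d (nr V) φ} = {w | w1 w ∈ ext d V φ} := by
      ext w; exact (l w w (fun _ _ => Iff.rfl) (fun _ _ => Iff.rfl)).2
    rw [dia_e, dia_e, ih, e0, e1]
  | box φ ih =>
    intro k
    have l := (loc_iff d (nr V) d V univ (fun _ _ => Iff.rfl) φ (subset_univ _)).2
    have e0 : {w | w0 w ∈ ext d (nr V) φ} = {w | w0 w ∈ ext d V φ} := by
      ext w; exact (l w w (fun _ _ => Iff.rfl) (fun _ _ => Iff.rfl)).1
    have e1 : {w | w1 w ∈ ext d (nr V) φ} = {w | w1 w ∈ ext d V φ} := by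
      ext w; exact (l w w (fun _ _ => Iff.rfl) (fun _ _ => Iff.rfl)).2
    rw [box_e, box_e, ih, e0, e1]

lemma Rel.nr' {W W' : Type} {L : Set (ℕ × Bool)} {M : ℕ} {d : Set W → ℕ → Prop}
    {V : Pt W → ℕ → Prop} {d' : Set W' → ℕ → Prop} {V' : Pt W' → ℕ → Prop}
    (h : Rel L M d V d' V') : Rel L M d (nr V) d' (nr V') :=
  ⟨h.he, h.hz, h.tot, h.sur, h.hd⟩

lemma finite_LV {Q : Set ℕ} (hQ : Q.Finite) : (LV Q).Finite := by
  refine (hQ.prod (finite_univ (α := Bool))).subset ?_
  exact fun l hl => ⟨hl, trivial⟩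

/-- the one point model -/
def ptV {a b c : ℕ → Prop} : Pt Unit → ℕ → Prop
  | z => a
  | w0 _ => b
  | w1 _ => c
  | e _ => a
  | rho => a

theorem cip_Lam : CIP Lam := by
  intro φ ψ himp
  rw [imp_mem_Lam] at himp
  set Q := φ.vars ∩ ψ.vars with hQ
  have hQf : Q.Finite := (finite_vars φ).subset inter_subset_left
  set M := max (depth φ) (depth ψ) with hM
  obtain ⟨M', hMM, hden⟩ := exists_dense M
  obtain ⟨χ, h1, h2, h3⟩ := interp (LV Q) (finite_LV hQf) (M' + 5) φ ψ (by
    intro m m' hm hm'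
    by_contra hcon
    push Not at hcon
    apply hm'
    obtain ⟨W, ne, d, V, x, ok⟩ := m
    obtain ⟨W', ne', d', V', x', ok'⟩ := m'
    have hc := cmp (finite_LV hQf) M' d V x d' V' x' hcon
    -- amalgamation for the local points
    have hloc : ∀ (w : W) (w' : W'), Lle (LV Q) (V z) (V' z) →
        AtLe (LV Q) (atm V w) (atm V' w') →
        ((z ∈ ext d V φ → z ∈ ext d' V' ψ) ∧ (w0 w ∈ ext d V φ → w0 w' ∈ ext d' V' ψ) ∧
          (w1 w ∈ ext d V φ → w1 w' ∈ ext d' V' ψ)) := by
      intro w w' hz ha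
      let U : Pt Unit → ℕ → Prop := @ptV (mix φ.vars (V z) (V' z))
        (mix φ.vars (V (w0 w)) (V' (w0 w'))) (mix φ.vars (V (w1 w)) (V' (w1 w')))
      let dU : Set Unit → ℕ → Prop := fun _ _ => True
      have l1 := loc_iff dU U d V φ.vars (fun p hp => mix_left hp) φ Subset.rfl
      have l2 := loc_iff dU U d' V' ψ.vars (fun p hp => mix_right (lle_LV.1 hz) hp) ψ Subset.rfl
      have l1' := l1.2 () w (fun p hp => mix_left hp) (fun p hp => mix_left hp)
      have l2' := l2.2 () w' (fun p hp => mix_right (lle_LV.1 ha.1) hp)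
        (fun p hp => mix_right (lle_LV.1 ha.2) hp)
      refine ⟨fun h => ?_, fun h => ?_, fun h => ?_⟩
      · exact l2.1.1 (himp ⟨Unit, inferInstance, dU, U, z, by simp⟩ (l1.1.2 h))
      · exact l2'.1.1 (himp ⟨Unit, inferInstance, dU, U, w0 (), by simp⟩ (l1'.1.2 h))
      · exact l2'.2.1 (himp ⟨Unit, inferInstance, dU, U, w1 (), by simp⟩ (l1'.2.2 h))
    cases hc with
    | z h h' hz =>
      subst h; subst h'
      let U : Pt Unit → ℕ → Prop := @ptV (mix φ.vars (V z) (V' z))
        (mix φ.vars (V z) (V' z)) (mix φ.vars (V z) (V' z))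
      let dU : Set Unit → ℕ → Prop := fun _ _ => True
      have l1 := loc_iff dU U d V φ.vars (fun p hp => mix_left hp) φ Subset.rfl
      have l2 := loc_iff dU U d' V' ψ.vars (fun p hp => mix_right (lle_LV.1 hz) hp) ψ Subset.rfl
      exact l2.1.1 (himp ⟨Unit, inferInstance, dU, U, z, by simp⟩ (l1.1.2 hm))
    | w0 w w' h h' hz ha =>
      subst h; subst h'
      exact (hloc w w' hz ha).2.1 hm
    | w1 w w' h h' hz ha =>
      subst h; subst h'
      exact (hloc w w' hz ha).2.2 hm
    | e i i' h h' hr =>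
      subst h; subst h'
      obtain ⟨U, neU, D, VU, hD, e1, e2⟩ := amalg (κ := false) (le_max_left _ _)
        (le_max_right _ _) hMM hden _ _ _ _ (by simp) (by simp) hr.nr' (Lle.refl _ _)
      have e1' : e 0 ∈ ext D VU φ ↔ e 0 ∈ ext (shd i d) (nr (shV i V)) φ := e1
      have e2' : e 0 ∈ ext D VU ψ ↔ e 0 ∈ ext (shd i' d') (nr (shV i' V')) ψ := e2
      rw [nr_e, sh_e] at e1' e2'
      exact e2'.1 (himp ⟨U, neU, D, VU, e 0, by simp⟩ (e1'.2 hm))
    | rho h h' hr hl =>
      subst h; subst h'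
      obtain ⟨U, neU, D, VU, hD, e1, e2⟩ := amalg (κ := true) (le_max_left _ _) (le_max_right _ _)
        hMM hden d V d' V' (fun _ => ok rfl) (fun _ => ok' rfl) hr hl
      exact e2.1 (himp ⟨U, neU, D, VU, rho, fun _ => hD rfl⟩ (e1.2 hm)))
  refine ⟨χ, fun p hp => ?_, h2, h3⟩
  obtain ⟨b, hb⟩ := vars_lits hp
  exact h1 hb

lemma mono_sem {f : Fm} (hf : MonotoneIn Lam f) (W : Type) [Nonempty W] (d : Set W → ℕ → Prop)
    (V V' : Pt W → ℕ → Prop) (x : Pt W) (hx : x = rho → Mono d) (hV : ∀ y p, V y p → V' y p)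
    (h : x ∈ ext d V f) : x ∈ ext d V' f := by
  obtain ⟨ν, hν, hfr, him⟩ := hf
  let U : Pt W → ℕ → Prop := fun y p => (p ∈ f.vars ∧ V y p) ∨
    (p ∉ f.vars ∧ ∃ q ∈ f.vars, ν q = p ∧ V' y q)
  have h1 : ext d U f = ext d V f := ext_congr d f fun y p hp => by
    simp only [U]; tauto
  have h2 := (mem_imp _ _ _ _ _).1 (him W d U x hx) (by rw [h1]; exact h)
  rw [ext_subst] at h2
  have h3 : ext d (fun y p => y ∈ ext d U (Fm.or (pos p) (pos (ν p)))) f = ext d V' f :=
    ext_congr d f fun y p hp => by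
      rw [ext_or, ext_pos, ext_pos]
      constructor
      · rintro (h | h)
        · rcases h with h | h
          · exact hV y p h.2
          · exact absurd hp h.1
        · rcases h with h | h
          · exact absurd h.1 (hfr p hp)
          · obtain ⟨_, q, _, hq, hq'⟩ := h
            rwa [hν hq] at hq'
      · intro h
        right; right
        exact ⟨hfr p hp, p, hp, rfl, h⟩
  rwa [h3] at h2

theorem lpp_Lam : LPP Lam := by
  intro f hf
  have hs : ∀ κ, SMon κ f := fun κ W _ d V V' hd hV h =>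
    mono_sem hf W d V V' _ (fun hx => hd (by cases κ <;> simp_all [pt])) hV h
  set L : Set (ℕ × Bool) := {l | l.1 ∈ f.vars ∧ l.2 = true} with hL
  have hLf : L.Finite := (finite_LV (finite_vars f)).subset fun l hl => hl.1
  have hLv : ∀ p ∈ f.vars, (p, true) ∈ L := fun p hp => ⟨hp, rfl⟩
  obtain ⟨χ, h1, h2, h3⟩ := interp L hLf (depth f + 5) f f (by
    intro m m' hm hm'
    by_contra hcon
    push Not at hcon
    apply hm'
    obtain ⟨W, ne, d, V, x, ok⟩ := m
    obtain ⟨W', ne', d', V', x', ok'⟩ := m'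
    have hc := cmp hLf (depth f) d V x d' V' x' hcon
    have hloc : ∀ (a b c a' b' c' : ℕ → Prop), Lle L a a' → Lle L b b' → Lle L c c' →
        ∀ x : Pt Unit, x ≠ rho →
        x ∈ ext (fun _ _ => True) (@ptV (fun p => p ∈ f.vars ∧ a p) (fun p => p ∈ f.vars ∧ b p)
          (fun p => p ∈ f.vars ∧ c p)) f →
        x ∈ ext (fun _ _ => True) (@ptV (fun p => p ∈ f.vars ∧ a' p) (fun p => p ∈ f.vars ∧ b' p)
          (fun p => p ∈ f.vars ∧ c' p)) f := by
      intro a b c a' b' c' ha hb hc x hx h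
      refine mono_sem hf Unit _ _ _ x (fun h' => absurd h' hx) ?_ h
      intro y p hy
      cases y with
      | z => exact ⟨hy.1, (ha p).1 (hLv p hy.1) hy.2⟩
      | w0 _ => exact ⟨hy.1, (hb p).1 (hLv p hy.1) hy.2⟩
      | w1 _ => exact ⟨hy.1, (hc p).1 (hLv p hy.1) hy.2⟩
      | e _ => exact ⟨hy.1, (ha p).1 (hLv p hy.1) hy.2⟩
      | rho => exact ⟨hy.1, (ha p).1 (hLv p hy.1) hy.2⟩
    cases hc with
    | z h h' hz =>
      subst h; subst h'
      have key := hloc (V z) (V z) (V z) (V' z) (V' z) (V' z) hz hz hz z (by simp)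
      have l1 := (loc_iff (fun _ _ => True) (@ptV (fun p => p ∈ f.vars ∧ V z p)
        (fun p => p ∈ f.vars ∧ V z p) (fun p => p ∈ f.vars ∧ V z p)) d V f.vars
        (fun p hp => by simp [ptV, hp]) f Subset.rfl).1
      have l2 := (loc_iff (fun _ _ => True) (@ptV (fun p => p ∈ f.vars ∧ V' z p)
        (fun p => p ∈ f.vars ∧ V' z p) (fun p => p ∈ f.vars ∧ V' z p)) d' V' f.vars
        (fun p hp => by simp [ptV, hp]) f Subset.rfl).1
      exact l2.1 (key (l1.2 hm))
    | w0 w w' h h' hz ha =>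
      subst h; subst h'
      have key := hloc (V z) (V (w0 w)) (V (w1 w)) (V' z) (V' (w0 w')) (V' (w1 w'))
        hz ha.1 ha.2 (w0 ()) (by simp)
      have l1 := ((loc_iff (fun _ _ => True) (@ptV (fun p => p ∈ f.vars ∧ V z p)
        (fun p => p ∈ f.vars ∧ V (w0 w) p) (fun p => p ∈ f.vars ∧ V (w1 w) p)) d V f.vars
        (fun p hp => by simp [ptV, hp]) f Subset.rfl).2 () w (fun p hp => by simp [ptV, hp])
        (fun p hp => by simp [ptV, hp])).1
      have l2 := ((loc_iff (fun _ _ => True) (@ptV (fun p => p ∈ f.vars ∧ V' z p)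
        (fun p => p ∈ f.vars ∧ V' (w0 w') p) (fun p => p ∈ f.vars ∧ V' (w1 w') p)) d' V' f.vars
        (fun p hp => by simp [ptV, hp]) f Subset.rfl).2 () w' (fun p hp => by simp [ptV, hp])
        (fun p hp => by simp [ptV, hp])).1
      exact l2.1 (key (l1.2 hm))
    | w1 w w' h h' hz ha =>
      subst h; subst h'
      have key := hloc (V z) (V (w0 w)) (V (w1 w)) (V' z) (V' (w0 w')) (V' (w1 w'))
        hz ha.1 ha.2 (w1 ()) (by simp)
      have l1 := ((loc_iff (fun _ _ => True) (@ptV (fun p => p ∈ f.vars ∧ V z p)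
        (fun p => p ∈ f.vars ∧ V (w0 w) p) (fun p => p ∈ f.vars ∧ V (w1 w) p)) d V f.vars
        (fun p hp => by simp [ptV, hp]) f Subset.rfl).2 () w (fun p hp => by simp [ptV, hp])
        (fun p hp => by simp [ptV, hp])).2
      have l2 := ((loc_iff (fun _ _ => True) (@ptV (fun p => p ∈ f.vars ∧ V' z p)
        (fun p => p ∈ f.vars ∧ V' (w0 w') p) (fun p => p ∈ f.vars ∧ V' (w1 w') p)) d' V' f.vars
        (fun p hp => by simp [ptV, hp]) f Subset.rfl).2 () w' (fun p hp => by simp [ptV, hp])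
        (fun p hp => by simp [ptV, hp])).2
      exact l2.1 (key (l1.2 hm))
    | e i i' h h' hr =>
      subst h; subst h'
      have key := mono_pt (hs false) le_rfl (shd i d) (nr (shV i V)) (shd i' d') (nr (shV i' V'))
        (by simp) (by simp) L hLv hr.nr' (Lle.refl _ _)
      have key' : e 0 ∈ ext (shd i d) (nr (shV i V)) f →
        e 0 ∈ ext (shd i' d') (nr (shV i' V')) f := key
      rw [nr_e, nr_e, sh_e, sh_e] at key'
      exact key' hm
    | rho h h' hr hl =>
      subst h; subst h'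
      exact mono_pt (hs true) le_rfl d V d' V' (fun _ => ok rfl) (fun _ => ok' rfl) L hLv hr hl hm)
  refine ⟨χ, fun p hp => ?_, ?_⟩
  · have := h1 hp
    simp [hL] at this
  · rw [iff_mem_Lam]
    rw [imp_mem_Lam] at h2 h3
    exact fun m => ⟨h2 m, h3 m⟩

end Pool.Agent.H674.MML
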