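import Pool.Agent.H674.MML.Amalg

/-!
# Craig interpolation and Lyndon positivity of the logic
-/

set_option autoImplicit false

namespace Pool.Agent.H674.MML

open Fm Set Pt

/-- Monotone formulas are preserved at `pt κ` when the positive information grows. -/
lemma mono_pt {κ : Bool} {f : Fm} {M : ℕ} (hf : SMon κ f) (hM : depth f ≤ M) {Wx Wy : Type}
    [Nonempty Wx] [Nonempty Wy] (dx : Set Wx → ℕ → Prop) (Vx : Pt Wx → ℕ → Prop)
    (dy : Set Wy → ℕ → Prop) (Vy : Pt Wy → ℕ → Prop) (hx : κ = true → Mono dx)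
    (hy : κ = true → Mono dy) (L : Set (ℕ × Bool)) (hL : ∀ p ∈ f.vars, (p, true) ∈ L)
    (hrel : Rel L M dx Vx dy Vy) (hrho : Lle L (Vx rho) (Vy rho))
    (h : pt κ ∈ ext dx Vx f) : pt κ ∈ ext dy Vy f := by
  classical
  -- the relation
  let T : Wx → Wy → Prop := fun w w' => AtLe L (atm Vx w) (atm Vy w')
  -- the middle model
  let Vm : Pt (Wx ⊕ Wy) → ℕ → Prop := fun x => match x with
    | z => Vy z
    | rho => Vy rho
    | e k => Vy (e k)
    | w0 (Sum.inl w) => Vx (w0 w)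
    | w0 (Sum.inr w) => Vy (w0 w)
    | w1 (Sum.inl w) => Vx (w1 w)
    | w1 (Sum.inr w) => Vy (w1 w)
  let R1 : Wx → Wx ⊕ Wy → Prop := fun w u => match u with
    | Sum.inl v => w = v
    | Sum.inr v => T w v
  let R2 : Wx ⊕ Wy → Wy → Prop := fun u w => match u with
    | Sum.inl v => T v w
    | Sum.inr v => v = w
  have hT0 : ∀ w w', T w w' → ∀ p ∈ f.vars, Vx (w0 w) p → Vy (w0 w') p :=
    fun w w' h p hp => (h.1 p).1 (hL p hp)
  have hT1 : ∀ w w', T w w' → ∀ p ∈ f.vars, Vx (w1 w) p → Vy (w1 w') p :=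
    fun w w' h p hp => (h.2 p).1 (hL p hp)
  have tot1 : ∀ w, ∃ u, R1 w u := fun w => ⟨Sum.inl w, rfl⟩
  have sur1 : ∀ u, ∃ w, R1 w u := by
    rintro (u | u)
    · exact ⟨u, rfl⟩
    · exact hrel.sur u
  have tot2 : ∀ u, ∃ w, R2 u w := by
    rintro (u | u)
    · exact hrel.tot u
    · exact ⟨u, rfl⟩
  have sur2 : ∀ w, ∃ u, R2 u w := fun w => ⟨Sum.inr w, rfl⟩
  have ra1 : Raise f.vars M Vx Vm R1 := by
    refine ⟨?_, ?_, ?_, ?_, ?_⟩
    · rintro w (v | v) hv p hp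
      · obtain rfl : w = v := hv
        exact id
      · exact hT0 w v hv p hp
    · rintro w (v | v) hv p hp
      · obtain rfl : w = v := hv
        exact id
      · exact hT1 w v hv p hp
    · exact fun p hp => (hrel.hz p).1 (hL p hp)
    · exact fun p hp => (hrho p).1 (hL p hp)
    · exact fun k hk p hp => (hrel.he k hk p).1 (hL p hp)
  have ra2 : Raise f.vars M Vm Vy R2 := by
    refine ⟨?_, ?_, fun _ _ h => h, fun _ _ h => h, fun _ _ _ _ h => h⟩
    · rintro (v | v) w hv p hp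
      · exact hT0 v w hv p hp
      · obtain rfl : v = w := hv
        exact id
    · rintro (v | v) w hv p hp
      · exact hT1 v w hv p hp
      · obtain rfl : v = w := hv
        exact id
  obtain ⟨d1, hd1, hr1, ht1⟩ := push hf hM R1 tot1 sur1 Vx Vm ra1 dx fun hκ => (hx hκ).mv M
  obtain ⟨d2, hd2, hr2, ht2⟩ := pull hf hM R2 tot2 sur2 Vm Vy ra2 dy fun hκ => (hy hκ).mv M
  apply ht2
  have h1 := ht1 h
  refine flip hf hM Vm d1 d2 hd1 hd2 ?_ h1
  intro E hE k hk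
  have key : ∀ v w, T v w → (Sum.inl v ∈ E ↔ Sum.inr w ∈ E) := fun v w hvw =>
    hE (Sum.inl v) (Sum.inr w) ⟨hT0 v w hvw, hT1 v w hvw⟩
  have e1 : Rig R1 (Sum.inl ⁻¹' E) E := by
    rintro w (v | v) hv
    · obtain rfl : w = v := hv
      exact Iff.rfl
    · exact key w v hv
  have e2 : Rig R2 E (Sum.inr ⁻¹' E) := by
    rintro (v | v) w hv
    · exact key v w hv
    · obtain rfl : v = w := hv
      exact Iff.rfl
  rw [← hr1 _ _ e1 k hk, ← hr2 _ _ e2 k hk |>.symm]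
  exact hrel.hd _ _ key k hk

/-- Merging two assignments. -/
def mix (B : Set ℕ) (a b : ℕ → Prop) : ℕ → Prop := fun p => (p ∈ B ∧ a p) ∨ (p ∉ B ∧ b p)

lemma mix_left {B : Set ℕ} {a b : ℕ → Prop} {p : ℕ} (hp : p ∈ B) : mix B a b p ↔ a p := by
  unfold mix; tauto

lemma mix_right {B C : Set ℕ} {a b : ℕ → Prop} (h : ∀ p ∈ B ∩ C, a p ↔ b p) {p : ℕ}
    (hp : p ∈ C) : mix B a b p ↔ b p := by
  by_cases hB : p ∈ B
  · rw [mix_left hB]; exact h p ⟨hB, hp⟩
  · unfold mix; tauto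

/-- The literals over a set of variables. -/
def LV (Q : Set ℕ) : Set (ℕ × Bool) := {l | l.1 ∈ Q}

lemma lle_LV {Q : Set ℕ} {a b : ℕ → Prop} : Lle (LV Q) a b ↔ ∀ p ∈ Q, a p ↔ b p := by
  constructor
  · exact fun h p hp => ⟨(h p).1 hp, (h p).2 hp⟩
  · exact fun h p => ⟨fun hp => (h p hp).1, fun hp => (h p hp).2⟩

lemma atle_symm {Q : Set ℕ} {a b : (ℕ → Prop) × (ℕ → Prop)} (h : AtLe (LV Q) a b) :
    AtLe (LV Q) b a :=
  ⟨lle_LV.2 fun p hp => (lle_LV.1 h.1 p hp).symm, lle_LV.2 fun p hp => (lle_LV.1 h.2 p hp).symm⟩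

/-- All pairs of indices below `M` have an intermediate index below `M'`. -/
def Dense' (M M' : ℕ) : Prop :=
  ∀ i j, i < M → j < M → idx i < idx j → ∃ m < M', idx i < idx m ∧ idx m < idx j

lemma exists_dense (M : ℕ) : ∃ M', M ≤ M' ∧ Dense' M M' := by
  classical
  have h : ∀ i j : ℕ, ∃ m, idx i < idx j → idx i < idx m ∧ idx m < idx j := by
    intro i j
    by_cases hij : idx i < idx j
    · obtain ⟨x, h1, h2⟩ := exists_between hij
      obtain ⟨m, rfl⟩ := idx_surj x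
      exact ⟨m, fun _ => ⟨h1, h2⟩⟩
    · exact ⟨0, fun h => absurd h hij⟩
  choose m hm using h
  refine ⟨max M ((Finset.range M ×ˢ Finset.range M).sup (fun q => m q.1 q.2) + 1),
    le_max_left _ _, fun i j hi hj hij => ⟨m i j, ?_, hm i j hij⟩⟩
  refine lt_max_of_lt_right (Nat.lt_succ_of_le ?_)
  exact Finset.le_sup (f := fun q : ℕ × ℕ => m q.1 q.2) (b := (i, j))
    (Finset.mem_product.2 ⟨Finset.mem_range.2 hi, Finset.mem_range.2 hj⟩)

/-- Amalgamation at `pt κ`. -/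
lemma amalg {κ : Bool} {φ ψ : Fm} {M M' : ℕ} (hφ : depth φ ≤ M) (hψ : depth ψ ≤ M)
    (hMM : M ≤ M') (hden : Dense' M M') {Wx Wy : Type}
    [Nonempty Wx] [Nonempty Wy] (dx : Set Wx → ℕ → Prop) (Vx : Pt Wx → ℕ → Prop)
    (dy : Set Wy → ℕ → Prop) (Vy : Pt Wy → ℕ → Prop) (hx : κ = true → Mono dx)
    (hy : κ = true → Mono dy)
    (hrel : Rel (LV (φ.vars ∩ ψ.vars)) M' dx Vx dy Vy)
    (hrho : Lle (LV (φ.vars ∩ ψ.vars)) (Vx rho) (Vy rho)) :
    ∃ (W : Type) (_ : Nonempty W) (d : Set W → ℕ → Prop) (V : Pt W → ℕ → Prop),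
      (κ = true → Mono d) ∧ (pt κ ∈ ext d V φ ↔ pt κ ∈ ext dx Vx φ) ∧
      (pt κ ∈ ext d V ψ ↔ pt κ ∈ ext dy Vy ψ) := by
  classical
  set Q := φ.vars ∩ ψ.vars with hQ
  let R : Wx → Wy → Prop := fun w w' => AtLe (LV Q) (atm Vx w) (atm Vy w')
  have h12 : κ = true → ∀ (a : Set Wx) (b : Set Wy), (∀ w w', R w w' → w ∈ a → w' ∈ b) →
      ∀ i j, i < M → j < M → idx i < idx j → dx a j → dy b i := by
    intro hκ a b hab i j hi hj hij h
    obtain ⟨m, hm, h1, h2⟩ := hden i j hi hj hij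
    let c : Set Wx := {w | ∃ v ∈ a, AtLe (LV Q) (atm Vx v) (atm Vx w)}
    let c' : Set Wy := {w | ∃ v ∈ a, AtLe (LV Q) (atm Vx v) (atm Vy w)}
    have hr : Rig R c c' := by
      intro w w' hw
      constructor
      · rintro ⟨v, hv, h⟩; exact ⟨v, hv, h.trans hw⟩
      · rintro ⟨v, hv, h⟩; exact ⟨v, hv, h.trans (atle_symm hw)⟩
    have h3 : dx c m := hx hκ a c (fun w hw => ⟨w, hw, AtLe.refl _ _⟩) m j h2 h
    have h4 : dy c' m := (hrel.hd c c' hr m hm).1 h3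
    refine hy hκ c' b ?_ i m h1 h4
    rintro w ⟨v, hv, h⟩
    exact hab v w h hv
  have h21 : κ = true → ∀ (b : Set Wy) (a : Set Wx), (∀ w w', R w w' → w' ∈ b → w ∈ a) →
      ∀ i j, i < M → j < M → idx i < idx j → dy b j → dx a i := by
    intro hκ b a hab i j hi hj hij h
    obtain ⟨m, hm, h1, h2⟩ := hden i j hi hj hij
    let c : Set Wx := {w | ∃ v ∈ b, AtLe (LV Q) (atm Vx w) (atm Vy v)}
    let c' : Set Wy := {w | ∃ v ∈ b, AtLe (LV Q) (atm Vy w) (atm Vy v)}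
    have hr : Rig R c c' := by
      intro w w' hw
      constructor
      · rintro ⟨v, hv, h⟩; exact ⟨v, hv, (atle_symm hw).trans h⟩
      · rintro ⟨v, hv, h⟩; exact ⟨v, hv, AtLe.trans hw h⟩
    have h3 : dy c' m := hy hκ b c' (fun w hw => ⟨w, hw, AtLe.refl _ _⟩) m j h2 h
    have h4 : dx c m := (hrel.hd c c' hr m hm).2 h3
    refine hx hκ c a ?_ i m h1 h4
    rintro w ⟨v, hv, h⟩
    exact hab w v h hv
  obtain ⟨D, hD, e1, e2⟩ := exists_lift2 R κ M hrel.tot hrel.sur dx dy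
    (fun hκ => (hx hκ).mv M) (fun hκ => (hy hκ).mv M) h12 h21
    (fun a b hab k hk => hrel.hd a b hab k (lt_of_lt_of_le hk hMM))
  have hne : Nonempty (RT R) := (p1_surj R hrel.tot).nonempty
  let V : Pt (RT R) → ℕ → Prop := fun x => match x with
    | z => mix φ.vars (Vx z) (Vy z)
    | rho => mix φ.vars (Vx rho) (Vy rho)
    | e k => mix φ.vars (Vx (e k)) (Vy (e k))
    | w0 u => mix φ.vars (Vx (w0 (p1 R u))) (Vy (w0 (p2 R u)))
    | w1 u => mix φ.vars (Vx (w1 (p1 R u))) (Vy (w1 (p2 R u)))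
  refine ⟨RT R, hne, D, V, hD, ?_, ?_⟩
  · have B : Bis φ.vars M D V dx Vx (fun u w => p1 R u = w) := by
      refine ⟨fun u => ⟨_, rfl⟩, p1_surj R hrel.tot, ?_, ?_, ?_, ?_, ?_, ?_⟩
      · rintro u _ rfl p hp; exact mix_left hp
      · rintro u _ rfl p hp; exact mix_left hp
      · exact fun p hp => mix_left hp
      · exact fun p hp => mix_left hp
      · exact fun k _ p hp => mix_left hp
      · intro a a' hr k hk
        have : a = p1 R ⁻¹' a' := by ext u; exact hr u _ rfl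
        rw [this, e1 a' k hk]
    exact B.sat_pt κ φ Subset.rfl hφ
  · have B : Bis ψ.vars M D V dy Vy (fun u w => p2 R u = w) := by
      refine ⟨fun u => ⟨_, rfl⟩, p2_surj R hrel.sur, ?_, ?_, ?_, ?_, ?_, ?_⟩
      · rintro u _ rfl p hp; exact mix_right (lle_LV.1 u.2.1) hp
      · rintro u _ rfl p hp; exact mix_right (lle_LV.1 u.2.2) hp
      · exact fun p hp => mix_right (lle_LV.1 hrel.hz) hp
      · exact fun p hp => mix_right (lle_LV.1 hrho) hp
      · exact fun k hk p hp => mix_right (lle_LV.1 (hrel.he k (hk.trans hMM))) hp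
      · intro a a' hr k hk
        have : a = p2 R ⁻¹' a' := by ext u; exact hr u _ rfl
        rw [this, e2 a' k hk]
    exact B.sat_pt κ ψ Subset.rfl hψ

end Pool.Agent.H674.MML
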