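import Pool.Agent.H674.MML.Final

/-!
# The logic does not have Lyndon interpolation
-/

set_option autoImplicit false

namespace Pool.Agent.H674.MML

open Fm Set Pt

/-- the value of the literal `l` on the first copy, read on both copies -/
def g0 (l : ℕ × Bool) : Fm :=
  Fm.or (Fm.and T2 (lit l)) (Fm.and T2.not (dia (Fm.and (lit l) T1.not)))

/-- the `k`-th bit of the set defined by `p` on the first copy -/
def bitF (k p : ℕ) : Fm := nx k (md (place (pos p) (dia (Fm.and (neg p) T1.not))))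

section

variable {W : Type} (d : Set W → ℕ → Prop) (V : Pt W → ℕ → Prop)

lemma mem_g0_0 (l : ℕ × Bool) (w : W) : w0 w ∈ ext d V (g0 l) ↔ tl l (V (w0 w)) := by
  simp [g0, mem_lit]

lemma mem_g0_1 (l : ℕ × Bool) (w : W) : w1 w ∈ ext d V (g0 l) ↔ tl l (V (w0 w)) := by
  simp [g0, mem_lit]

lemma mem_bitF [Nonempty W] (k p : ℕ) :
    e 0 ∈ ext d V (bitF k p) ↔ d {w | V (w0 w) p} k := by
  unfold bitF
  rw [mem_nx, zero_add, mem_md]
  have e0 : {w | w0 w ∈ ext d V (place (pos p) (dia (Fm.and (neg p) T1.not)))} =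
      {w | V (w0 w) p} := by
    ext w; simp [place]
  have e1 : {w | w1 w ∈ ext d V (place (pos p) (dia (Fm.and (neg p) T1.not)))} =
      {w | V (w0 w) p}ᶜ := by
    ext w; simp [place]
  rw [e0, e1, mod_compl]

end

/-- `p₀ ⊆ p₁` and the bit `j` of `p₀` is one, at the root -/
def phi (j : ℕ) : Fm :=
  Fm.and Rr (dia (Fm.and (md (Fm.or (g0 (0, false)) (g0 (1, true)))) (bitF j 0)))

/-- if `p₁ ⊆ p₂` then the bit `j` of `p₂` is one, at the root -/
def psi (j : ℕ) : Fm :=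
  Fm.or Rr.not (dia (Fm.or (mdd (Fm.and (g0 (1, true)) (g0 (2, false)))) (bitF j 2)))

section

variable {W : Type} [Nonempty W] (d : Set W → ℕ → Prop) (V : Pt W → ℕ → Prop)

lemma mem_phi (j : ℕ) : rho ∈ ext d V (phi j) ↔
    (∀ w, V (w0 w) 0 → V (w0 w) 1) ∧ d {w | V (w0 w) 0} j := by
  unfold phi
  rw [ext_and, dia_rho, ext_and, mem_bitF, mem_md]
  have e0 : {w | w0 w ∈ ext d V (Fm.or (g0 (0, false)) (g0 (1, true)))} =
      {w | V (w0 w) 0 → V (w0 w) 1} := by
    ext w; simp [mem_g0_0, tl]; tauto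
  have e1 : {w | w1 w ∈ ext d V (Fm.or (g0 (0, false)) (g0 (1, true)))} =
      {w | V (w0 w) 0 → V (w0 w) 1} := by
    ext w; simp [mem_g0_1, tl]; tauto
  rw [e0, e1, mod_self, eq_univ_iff_forall]
  simp [Rr_rho]

lemma mem_psi (j : ℕ) : rho ∈ ext d V (psi j) ↔
    ((∀ w, V (w0 w) 1 → V (w0 w) 2) → d {w | V (w0 w) 2} j) := by
  unfold psi
  rw [ext_or, dia_rho, ext_or, mem_bitF, mem_mdd]
  have e0 : {w | w0 w ∈ ext d V (Fm.and (g0 (1, true)) (g0 (2, false)))} =
      {w | V (w0 w) 1 ∧ ¬ V (w0 w) 2} := by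
    ext w; simp [mem_g0_0, tl]
  have e1 : {w | w1 w ∈ ext d V (Fm.and (g0 (1, true)) (g0 (2, false)))} =
      {w | V (w0 w) 1 ∧ ¬ V (w0 w) 2} := by
    ext w; simp [mem_g0_1, tl]
  rw [e0, e1, dmod_self]
  have h : ¬ rho ∈ ext d V Rr.not := by rw [mem_not]; exact fun h => h (Rr_rho d V)
  constructor
  · rintro (h1 | h1 | h1)
    · exact absurd h1 h
    · intro h2
      obtain ⟨w, hw1, hw2⟩ := h1
      exact absurd (h2 w hw1) hw2
    · exact fun _ => h1
  · intro h1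
    right
    by_cases h2 : ∀ w, V (w0 w) 1 → V (w0 w) 2
    · exact Or.inr (h1 h2)
    · push Not at h2
      obtain ⟨w, hw⟩ := h2
      exact Or.inl ⟨w, hw⟩

end

lemma bitF_lits (k p : ℕ) : (bitF k p).lits = {(p, true), (p, false)} := by
  unfold bitF
  rw [nx_lits, md_lits, place_lits]
  simp only [Fm.lits, T1n_lits, union_empty]
  rfl

lemma g0_lits (l : ℕ × Bool) : (g0 l).lits = {l} := by
  simp [g0, Fm.lits, T2_lits, T2n_lits, T1n_lits, lits_lit]

lemma phi_lits (j : ℕ) (l : ℕ × Bool) (h : l ∈ (phi j).lits) :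
    l = (0, true) ∨ l = (0, false) ∨ l = (1, true) := by
  simp only [phi, Fm.lits, Rr_lits, md_lits, g0_lits, bitF_lits] at h
  simp only [empty_union, mem_union, mem_singleton_iff, mem_insert_iff] at h
  tauto

lemma psi_lits (j : ℕ) (l : ℕ × Bool) (h : l ∈ (psi j).lits) :
    l = (2, true) ∨ l = (2, false) ∨ l = (1, true) := by
  have h0 : Rr.not.lits = ∅ := by simp [Rr, Fm.not, Fm.lits, T1, T2, T3]
  simp only [psi, Fm.lits, h0, mdd_lits, g0_lits, bitF_lits] at h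
  simp only [empty_union, mem_union, mem_singleton_iff, mem_insert_iff] at h
  tauto

/-- The two valuations: `p₁` is true at one of the two points, `p₀` (respectively `p₂`) as well. -/
def VV (q : ℕ) : Pt Bool → ℕ → Prop
  | w0 b => fun p => b = true ∧ (p = 1 ∨ p = q)
  | z => fun _ => False
  | w1 _ => fun _ => False
  | e _ => fun _ => False
  | rho => fun _ => False

def dX : Set Bool → ℕ → Prop := fun a _ => true ∈ a
def dY : Set Bool → ℕ → Prop := fun a _ => false ∈ a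

lemma up_closed (d : Set Bool → ℕ → Prop) (q : ℕ) (χ : Fm) (h : χ.lits ⊆ {(1, true)}) :
    (w0 false ∈ ext d (VV q) χ → w0 true ∈ ext d (VV q) χ) ∧
    (w1 false ∈ ext d (VV q) χ → w1 true ∈ ext d (VV q) χ) := by
  induction χ with
  | pos p =>
    refine ⟨fun h' => ?_, fun h' => h'.elim⟩
    exact absurd h'.1 (by simp)
  | neg p => exact absurd (h rfl) (by simp)
  | bot => exact ⟨fun h => h, fun h => h⟩
  | top => exact ⟨fun h => h, fun h => h⟩
  | and φ ψ ih1 ih2 =>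
    have i1 := ih1 fun l hl => h (Or.inl hl)
    have i2 := ih2 fun l hl => h (Or.inr hl)
    exact ⟨And.imp i1.1 i2.1, And.imp i1.2 i2.2⟩
  | or φ ψ ih1 ih2 =>
    have i1 := ih1 fun l hl => h (Or.inl hl)
    have i2 := ih2 fun l hl => h (Or.inr hl)
    exact ⟨Or.imp i1.1 i2.1, Or.imp i1.2 i2.2⟩
  | dia φ ih =>
    have i := ih h
    simp only [dia_w0, dia_w1]
    exact ⟨Or.imp_left i.2, i.1⟩
  | box φ ih =>
    have i := ih h
    simp only [box_w0, box_w1]
    exact ⟨And.imp_left i.2, i.1⟩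

lemma modXY (i : ℕ) (a b : Set Bool) (ha : false ∈ a → true ∈ a) (hb : false ∈ b → true ∈ b) :
    Mod dX i a b ↔ Mod dY i a b := by
  unfold Mod dX dY
  constructor
  · rintro ⟨h1, h2⟩
    refine ⟨h1, ?_⟩
    rcases h2 with h2 | h2
    · exact Or.inl h2
    · by_cases h3 : false ∈ a
      · exact Or.inr h3
      · left
        have h4 : false ∈ a ∪ b := by rw [h1]; trivial
        exact ⟨true, h2, hb (h4.resolve_left h3)⟩
  · rintro ⟨h1, h2⟩
    exact ⟨h1, h2.imp_right ha⟩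

lemma dmodXY (i : ℕ) (a b : Set Bool) (ha : false ∈ a → true ∈ a) (hb : false ∈ b → true ∈ b) :
    DMod dX i a b ↔ DMod dY i a b := by
  unfold DMod dX dY
  constructor
  · rintro (h | ⟨h1, h2⟩)
    · exact Or.inl h
    · by_cases h3 : false ∈ a
      · exact Or.inr ⟨h1, fun h => h h3⟩
      · left
        have h4 : false ∈ a ∪ b := by rw [h1]; trivial
        refine ⟨true, ?_, hb (h4.resolve_left h3)⟩
        by_contra h5
        exact h2 h5
  · rintro (h | ⟨h1, h2⟩)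
    · exact Or.inl h
    · refine Or.inr ⟨h1, fun h => h (ha ?_)⟩
      by_contra h5
      exact h2 h5

lemma transfer (χ : Fm) (h : χ.lits ⊆ {(1, true)}) :
    (∀ k, e k ∈ ext dX (VV 0) χ ↔ e k ∈ ext dY (VV 2) χ) ∧
    (rho ∈ ext dX (VV 0) χ ↔ rho ∈ ext dY (VV 2) χ) := by
  have key : ∀ χ : Fm, χ.lits ⊆ {(1, true)} →
      {w | w0 w ∈ ext dX (VV 0) χ} = {w | w0 w ∈ ext dY (VV 2) χ} ∧
      {w | w1 w ∈ ext dX (VV 0) χ} = {w | w1 w ∈ ext dY (VV 2) χ} := by
    intro χ h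
    have hv : χ.vars ⊆ {1} := by
      intro p hp
      obtain ⟨b, hb⟩ := vars_lits hp
      have := h hb
      simp only [mem_singleton_iff, Prod.mk.injEq] at this
      exact this.1
    have l := (loc_iff dX (VV 0) dY (VV 2) {1} (fun p _ => Iff.rfl) χ hv).2
    constructor
    · ext w
      exact (l w w (by rintro p rfl; simp [VV]) (fun p _ => Iff.rfl)).1
    · ext w
      exact (l w w (by rintro p rfl; simp [VV]) (fun p _ => Iff.rfl)).2
  induction χ with
  | pos p => exact ⟨fun k => Iff.rfl, Iff.rfl⟩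
  | neg p => exact absurd (h rfl) (by simp)
  | bot => exact ⟨fun k => Iff.rfl, Iff.rfl⟩
  | top => exact ⟨fun k => Iff.rfl, Iff.rfl⟩
  | and φ ψ ih1 ih2 =>
    have i1 := ih1 fun l hl => h (Or.inl hl)
    have i2 := ih2 fun l hl => h (Or.inr hl)
    exact ⟨fun k => and_congr (i1.1 k) (i2.1 k), and_congr i1.2 i2.2⟩
  | or φ ψ ih1 ih2 =>
    have i1 := ih1 fun l hl => h (Or.inl hl)
    have i2 := ih2 fun l hl => h (Or.inr hl)
    exact ⟨fun k => or_congr (i1.1 k) (i2.1 k), or_congr i1.2 i2.2⟩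
  | dia φ ih =>
    have i := ih h
    have u := up_closed dY 2 φ h
    refine ⟨fun k => ?_, ?_⟩
    · rw [dia_e, dia_e, (key φ h).1, (key φ h).2, i.1 (k + 1), modXY k _ _ u.1 u.2]
    · rw [dia_rho, dia_rho, i.1 0]
  | box φ ih =>
    have i := ih h
    have u := up_closed dY 2 φ h
    refine ⟨fun k => ?_, ?_⟩
    · rw [box_e, box_e, (key φ h).1, (key φ h).2, i.1 (k + 1), dmodXY k _ _ u.1 u.2]
    · rw [box_rho, box_rho, i.1 0]

theorem not_lip_Lam : ¬ LIP Lam := by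
  intro hL
  obtain ⟨j0, hj0⟩ := idx_surj 0
  obtain ⟨j1, hj1⟩ := idx_surj 1
  have hj : idx j0 < idx j1 := by rw [hj0, hj1]; norm_num
  obtain ⟨χ, h1, h2, h3⟩ := hL (phi j1) (psi j0) (by
    intro W _ d V x hx
    rw [mem_imp]
    intro h
    cases x with
    | z => exact absurd h.1 (Rr_z d V)
    | w0 w => exact absurd h.1 (Rr_w0 d V w)
    | w1 w => exact absurd h.1 (Rr_w1 d V w)
    | e i => exact absurd h.1 (Rr_e d V i)
    | rho =>
      rw [mem_phi] at h
      rw [mem_psi]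
      intro h'
      exact hx rfl _ _ (fun w hw => h' w (h.1 w hw)) _ _ hj h.2)
  have h4 : χ.lits ⊆ {(1, true)} := by
    intro l hl
    obtain ⟨h5, h6⟩ := h1 hl
    have a1 := phi_lits j1 l h5
    have a2 := psi_lits j0 l h6
    rcases a1 with rfl | rfl | rfl
    · simp at a2
    · simp at a2
    · rfl
  rw [imp_mem_Lam] at h2 h3
  have m1 : Mono dX := fun a b hab i j _ h => hab h
  have m2 : Mono dY := fun a b hab i j _ h => hab h
  have s1 : rho ∈ ext dX (VV 0) (phi j1) := by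
    rw [mem_phi]
    refine ⟨fun w hw => ⟨hw.1, Or.inl rfl⟩, ?_⟩
    show true ∈ {w | VV 0 (w0 w) 0}
    simp [VV]
  have s2 : rho ∈ ext dX (VV 0) χ := h2 ⟨Bool, inferInstance, dX, VV 0, rho, fun _ => m1⟩ s1
  have s3 : rho ∈ ext dY (VV 2) χ := (transfer χ h4).2.1 s2
  have s4 : rho ∈ ext dY (VV 2) (psi j0) :=
    h3 ⟨Bool, inferInstance, dY, VV 2, rho, fun _ => m2⟩ s3
  rw [mem_psi] at s4
  have s5 : false ∈ {w | VV 2 (w0 w) 2} := s4 fun w hw => ⟨hw.1, Or.inr rfl⟩
  simp [VV] at s5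

end Pool.Agent.H674.MML
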