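import Pool.Agent.H674.MML.Defs

/-!
# The semantics which defines the counterexample logic
-/

set_option autoImplicit false

namespace Pool.Agent.H674.MML

open Fm Set

/-- The points of the frame over a base set `W`: a point `z`, two copies `w0`, `w1` of `W`, a
chain `e 0, e 1, …` and a root `rho`. -/
inductive Pt (W : Type) : Type
  | z : Pt W
  | w0 (w : W) : Pt W
  | w1 (w : W) : Pt W
  | e (i : ℕ) : Pt W
  | rho : Pt W

open Pt

/-- An enumeration of the rational numbers. -/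
noncomputable def idx (n : ℕ) : ℚ := (Denumerable.eqv ℚ).symm n

lemma idx_surj (x : ℚ) : ∃ n, idx n = x := ⟨Denumerable.eqv ℚ x, by simp [idx]⟩

/-- The monotone function of two sets hiding the bits: nothing is visible unless the two sets
are complementary. -/
def Mod {W : Type} (d : Set W → ℕ → Prop) (i : ℕ) (a b : Set W) : Prop :=
  a ∪ b = univ ∧ ((a ∩ b).Nonempty ∨ d a i)

/-- The monotone operator interpreting the diamond. -/
def dm {W : Type} (d : Set W → ℕ → Prop) (X : Set (Pt W)) : Set (Pt W)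
  | z => True
  | w0 w => w1 w ∈ X ∨ z ∈ X
  | w1 w => w0 w ∈ X
  | e i => Mod d i {w | w0 w ∈ X} {w | w1 w ∈ X} ∧ e (i + 1) ∈ X
  | rho => e 0 ∈ X

/-- Extension of a formula. -/
def ext {W : Type} (d : Set W → ℕ → Prop) (V : Pt W → ℕ → Prop) : Fm → Set (Pt W)
  | pos p => {x | V x p}
  | neg p => {x | ¬ V x p}
  | bot => ∅
  | top => univ
  | Fm.and φ ψ => ext d V φ ∩ ext d V ψ
  | Fm.or φ ψ => ext d V φ ∪ ext d V ψ
  | dia φ => dm d (ext d V φ)
  | box φ => (dm d (ext d V φ)ᶜ)ᶜ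

/-- The bits of the sets behave like the cuts of real numbers which increase with the set. -/
def Mono {W : Type} (d : Set W → ℕ → Prop) : Prop :=
  ∀ a b : Set W, a ⊆ b → ∀ i j, idx i < idx j → d a j → d b i

/-- The logic. -/
def Lam : Set Fm :=
  {φ | ∀ (W : Type) [Nonempty W] (d : Set W → ℕ → Prop) (V : Pt W → ℕ → Prop) (x : Pt W),
    (x = rho → Mono d) → x ∈ ext d V φ}

section basic

variable {W : Type} (d : Set W → ℕ → Prop) (V : Pt W → ℕ → Prop)

@[simp] lemma ext_pos (p : ℕ) (x : Pt W) : x ∈ ext d V (pos p) ↔ V x p := Iff.rfl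
@[simp] lemma ext_neg (p : ℕ) (x : Pt W) : x ∈ ext d V (neg p) ↔ ¬ V x p := Iff.rfl
@[simp] lemma ext_bot (x : Pt W) : x ∈ ext d V bot ↔ False := Iff.rfl
@[simp] lemma ext_top (x : Pt W) : x ∈ ext d V top ↔ True := Iff.rfl
@[simp] lemma ext_and (φ ψ : Fm) (x : Pt W) :
    x ∈ ext d V (Fm.and φ ψ) ↔ x ∈ ext d V φ ∧ x ∈ ext d V ψ := Iff.rfl
@[simp] lemma ext_or (φ ψ : Fm) (x : Pt W) :
    x ∈ ext d V (Fm.or φ ψ) ↔ x ∈ ext d V φ ∨ x ∈ ext d V ψ := Iff.rfl

@[simp] lemma dia_z (φ : Fm) : z ∈ ext d V (dia φ) := trivial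
@[simp] lemma dia_w0 (φ : Fm) (w : W) :
    w0 w ∈ ext d V (dia φ) ↔ w1 w ∈ ext d V φ ∨ z ∈ ext d V φ := Iff.rfl
@[simp] lemma dia_w1 (φ : Fm) (w : W) : w1 w ∈ ext d V (dia φ) ↔ w0 w ∈ ext d V φ := Iff.rfl
@[simp] lemma dia_e (φ : Fm) (i : ℕ) : e i ∈ ext d V (dia φ) ↔
    Mod d i {w | w0 w ∈ ext d V φ} {w | w1 w ∈ ext d V φ} ∧ e (i + 1) ∈ ext d V φ := Iff.rfl
@[simp] lemma dia_rho (φ : Fm) : rho ∈ ext d V (dia φ) ↔ e 0 ∈ ext d V φ := Iff.rfl

@[simp] lemma box_z (φ : Fm) : z ∈ ext d V (box φ) ↔ False := by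
  show ¬ True ↔ False
  simp
@[simp] lemma box_w0 (φ : Fm) (w : W) :
    w0 w ∈ ext d V (box φ) ↔ w1 w ∈ ext d V φ ∧ z ∈ ext d V φ := by
  show ¬ (¬ _ ∨ ¬ _) ↔ _
  tauto
@[simp] lemma box_w1 (φ : Fm) (w : W) : w1 w ∈ ext d V (box φ) ↔ w0 w ∈ ext d V φ := by
  show ¬ (¬ _) ↔ _
  tauto
@[simp] lemma box_rho (φ : Fm) : rho ∈ ext d V (box φ) ↔ e 0 ∈ ext d V φ := by
  show ¬ (¬ _) ↔ _
  tauto

/-- the dual of `Mod` -/
def DMod {W : Type} (d : Set W → ℕ → Prop) (i : ℕ) (a b : Set W) : Prop :=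
  (a ∩ b).Nonempty ∨ (a ∪ b = univ ∧ ¬ d aᶜ i)

lemma dmod_iff (i : ℕ) (a b : Set W) : DMod d i a b ↔ ¬ Mod d i aᶜ bᶜ := by
  unfold DMod Mod
  have h1 : aᶜ ∪ bᶜ = univ ↔ ¬ (a ∩ b).Nonempty := by
    rw [← compl_inter, compl_univ_iff, not_nonempty_iff_eq_empty]
  have h2 : (aᶜ ∩ bᶜ).Nonempty ↔ ¬ (a ∪ b = univ) := by
    rw [← compl_union, nonempty_compl]
  rw [h1, h2]
  tauto

@[simp] lemma box_e (φ : Fm) (i : ℕ) : e i ∈ ext d V (box φ) ↔
    DMod d i {w | w0 w ∈ ext d V φ} {w | w1 w ∈ ext d V φ} ∨ e (i + 1) ∈ ext d V φ := by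
  rw [dmod_iff]
  show ¬ (Mod d i _ _ ∧ ¬ _) ↔ _
  have h0 : {w : W | w0 w ∈ (ext d V φ)ᶜ} = {w | w0 w ∈ ext d V φ}ᶜ := rfl
  have h1 : {w : W | w1 w ∈ (ext d V φ)ᶜ} = {w | w1 w ∈ ext d V φ}ᶜ := rfl
  rw [h0, h1]
  tauto

lemma ext_not (φ : Fm) : ext d V φ.not = (ext d V φ)ᶜ := by
  induction φ with
  | pos p => rfl
  | neg p => ext x; simp [Fm.not]
  | bot => simp [Fm.not, ext]
  | top => simp [Fm.not, ext]
  | and φ ψ h1 h2 => simp only [Fm.not, ext, h1, h2, compl_inter]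
  | or φ ψ h1 h2 => simp only [Fm.not, ext, h1, h2, compl_union]
  | dia φ h => simp only [Fm.not, ext, h, compl_compl]
  | box φ h => simp only [Fm.not, ext, h, compl_compl]

@[simp] lemma mem_not (φ : Fm) (x : Pt W) : x ∈ ext d V φ.not ↔ ¬ x ∈ ext d V φ := by
  rw [ext_not]; rfl

@[simp] lemma mem_imp (φ ψ : Fm) (x : Pt W) :
    x ∈ ext d V (imp φ ψ) ↔ (x ∈ ext d V φ → x ∈ ext d V ψ) := by
  unfold imp
  rw [ext_or, mem_not]
  tauto

@[simp] lemma mem_iff (φ ψ : Fm) (x : Pt W) :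
    x ∈ ext d V (Fm.iff φ ψ) ↔ (x ∈ ext d V φ ↔ x ∈ ext d V ψ) := by
  unfold Fm.iff
  rw [ext_and, mem_imp, mem_imp]
  tauto

lemma mod_mono {i : ℕ} {a b a' b' : Set W} (ha : a ⊆ a') (hb : b ⊆ b') (h : Mod d i a b) :
    Mod d i a' b' := by
  obtain ⟨h1, h2⟩ := h
  refine ⟨eq_univ_of_subset (union_subset_union ha hb) h1, ?_⟩
  rcases h2 with h2 | h2
  · exact Or.inl (h2.mono (inter_subset_inter ha hb))
  · by_cases h3 : (a' ∩ b').Nonempty
    · exact Or.inl h3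
    · right
      have : a' = a := by
        refine Subset.antisymm ?_ ha
        intro x hx
        by_contra hxa
        have : x ∈ a ∪ b := by rw [h1]; trivial
        rcases this with h | h
        · exact hxa h
        · exact h3 ⟨x, hx, hb h⟩
      rw [this]
      exact h2

lemma dm_mono {X Y : Set (Pt W)} (h : X ⊆ Y) : dm d X ⊆ dm d Y := by
  intro x hx
  cases x with
  | z => trivial
  | w0 w => exact hx.imp (fun h' => h h') (fun h' => h h')
  | w1 w => exact h hx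
  | e i => exact ⟨mod_mono d (fun w hw => h hw) (fun w hw => h hw) hx.1, h hx.2⟩
  | rho => exact h hx

lemma ext_subst (σ : ℕ → Fm) (φ : Fm) :
    ext d V (φ.subst σ) = ext d (fun x p => x ∈ ext d V (σ p)) φ := by
  induction φ with
  | pos p => rfl
  | neg p => exact ext_not d V (σ p)
  | bot => rfl
  | top => rfl
  | and φ ψ h1 h2 => simp only [Fm.subst, ext, h1, h2]
  | or φ ψ h1 h2 => simp only [Fm.subst, ext, h1, h2]
  | dia φ h => simp only [Fm.subst, ext, h]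
  | box φ h => simp only [Fm.subst, ext, h]

lemma ext_congr {V V' : Pt W → ℕ → Prop} (φ : Fm) (h : ∀ x, ∀ p ∈ φ.vars, V x p ↔ V' x p) :
    ext d V φ = ext d V' φ := by
  induction φ with
  | pos p => ext x; exact h x p rfl
  | neg p => ext x; exact not_congr (h x p rfl)
  | bot => rfl
  | top => rfl
  | and φ ψ h1 h2 =>
    simp only [ext, h1 fun x p hp => h x p (Or.inl hp), h2 fun x p hp => h x p (Or.inr hp)]
  | or φ ψ h1 h2 =>
    simp only [ext, h1 fun x p hp => h x p (Or.inl hp), h2 fun x p hp => h x p (Or.inr hp)]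
  | dia φ h1 => simp only [ext, h1 h]
  | box φ h1 => simp only [ext, h1 h]

lemma ext_modalFree (x : Pt W) (φ : Fm) (h : φ.ModalFree) : x ∈ ext d V φ ↔ φ.eval (V x) := by
  induction φ with
  | pos p => exact Iff.rfl
  | neg p => exact Iff.rfl
  | bot => exact Iff.rfl
  | top => exact Iff.rfl
  | and φ ψ h1 h2 => exact and_congr (h1 h.1) (h2 h.2)
  | or φ ψ h1 h2 => exact or_congr (h1 h.1) (h2 h.2)
  | dia φ _ => exact h.elim
  | box φ _ => exact h.elim

end basic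

theorem monotoneLogic_Lam : MonotoneLogic Lam where
  taut := fun φ h1 h2 W _ d V x _ => (ext_modalFree d V x φ h1).2 (h2 _)
  mono := by
    intro W _ d V x _
    rw [mem_imp]
    exact fun h => dm_mono d (fun y hy => Or.inl hy) h
  mp := by
    intro φ ψ h1 h2 W _ d V x hx
    exact (mem_imp d V φ ψ x).1 (h2 W d V x hx) (h1 W d V x hx)
  subst := by
    intro φ σ h W _ d V x hx
    rw [ext_subst]
    exact h W d _ x hx
  re := by
    intro φ ψ h W _ d V x hx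
    rw [mem_iff]
    have hz : z ∈ ext d V φ ↔ z ∈ ext d V ψ :=
      (mem_iff d V φ ψ _).1 (h W d V _ (by simp))
    have h0 : ∀ w, w0 w ∈ ext d V φ ↔ w0 w ∈ ext d V ψ := fun w =>
      (mem_iff d V φ ψ _).1 (h W d V _ (by simp))
    have h1 : ∀ w, w1 w ∈ ext d V φ ↔ w1 w ∈ ext d V ψ := fun w =>
      (mem_iff d V φ ψ _).1 (h W d V _ (by simp))
    have he : ∀ i, e i ∈ ext d V φ ↔ e i ∈ ext d V ψ := fun i =>
      (mem_iff d V φ ψ _).1 (h W d V _ (by simp))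
    cases x with
    | z => simp
    | w0 w => simp [hz, h1]
    | w1 w => simp [h0]
    | e i => simp [h0, h1, he]
    | rho => simp [he]

end Pool.Agent.H674.MML
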