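import Pool.Agent.H674.MML.Main

/-!
# Interpolants from separation of pointed models
-/

set_option autoImplicit false

namespace Pool.Agent.H674.MML

open Fm Set Pt

/-- Pointed models. -/
structure PM where
  W : Type
  ne : Nonempty W
  d : Set W → ℕ → Prop
  V : Pt W → ℕ → Prop
  x : Pt W
  ok : x = rho → Mono d

/-- Truth in a pointed model. -/
def PM.sat (m : PM) (φ : Fm) : Prop := m.x ∈ ext m.d m.V φ

lemma mem_Lam_iff (φ : Fm) : φ ∈ Lam ↔ ∀ m : PM, m.sat φ :=
  ⟨fun h m => @h m.W m.ne m.d m.V m.x m.ok, fun h W ne d V x hx => h ⟨W, ne, d, V, x, hx⟩⟩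

lemma imp_mem_Lam (φ ψ : Fm) : imp φ ψ ∈ Lam ↔ ∀ m : PM, m.sat φ → m.sat ψ := by
  rw [mem_Lam_iff]
  exact forall_congr' fun m => mem_imp _ _ _ _ _

lemma iff_mem_Lam (φ ψ : Fm) : Fm.iff φ ψ ∈ Lam ↔ ∀ m : PM, m.sat φ ↔ m.sat ψ := by
  rw [mem_Lam_iff]
  exact forall_congr' fun m => mem_iff _ _ _ _ _

/-- The region of a point. -/
def reg {W : Type} : Pt W → Fin 5
  | z => 0
  | w0 _ => 1
  | w1 _ => 2
  | e _ => 3
  | rho => 4

/-- The index of a point on the chain. -/
def off {W : Type} : Pt W → ℕ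
  | z => 0
  | w0 _ => 0
  | w1 _ => 0
  | e i => i
  | rho => 0

/-- Restriction of an assignment. -/
def rst (P : Set ℕ) (a : ℕ → Prop) : P → Prop := fun p => a p

lemma rst_eq {P : Set ℕ} {a b : ℕ → Prop} (h : rst P a = rst P b) : ∀ p ∈ P, a p ↔ b p :=
  fun p hp => iff_of_eq (congrFun h ⟨p, hp⟩)

/-- Restricted atom. -/
def ratm {W : Type} (P : Set ℕ) (V : Pt W → ℕ → Prop) (w : W) : (P → Prop) × (P → Prop) :=
  (rst P (V (w0 w)), rst P (V (w1 w)))

/-- Values at the point. -/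
def loc0 {W : Type} (P : Set ℕ) (V : Pt W → ℕ → Prop) : Pt W → (P → Prop) × (P → Prop)
  | w0 w => ratm P V w
  | w1 w => ratm P V w
  | rho => (rst P (V rho), fun _ => True)
  | z => (fun _ => True, fun _ => True)
  | e _ => (fun _ => True, fun _ => True)

/-- The finite invariant. -/
def inv (P : Set ℕ) (K : ℕ) (m : PM) :
    Fin 5 × (P → Prop) × (P → Prop) × ((P → Prop) × (P → Prop)) ×
      Set ((P → Prop) × (P → Prop)) ×
      (Set ((P → Prop) × (P → Prop)) → Fin K → Prop) × (Fin (K + 1) → P → Prop) :=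
  (reg m.x, rst P (m.V z), rst P (m.V rho), loc0 P m.V m.x, range (ratm P m.V),
    (fun C k => m.d {w | ratm P m.V w ∈ C} (off m.x + k)),
    (fun k => rst P (m.V (e (off m.x + k)))))

lemma inv_bis {P : Set ℕ} {K : ℕ} {m m' : PM} (h : inv P K m = inv P K m') :
    Bis P K (shd (off m.x) m.d) (shV (off m.x) m.V) (shd (off m'.x) m'.d) (shV (off m'.x) m'.V)
      (fun w w' => ratm P m.V w = ratm P m'.V w') := by
  simp only [inv, Prod.mk.injEq] at h
  obtain ⟨_, h1, h2, _, h3, h4, h5⟩ := h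
  have tot : ∀ w, ∃ w', ratm P m.V w = ratm P m'.V w' := by
    intro w
    have : ratm P m.V w ∈ range (ratm P m'.V) := by rw [← h3]; exact mem_range_self w
    obtain ⟨w', hw⟩ := this
    exact ⟨w', hw.symm⟩
  refine ⟨tot, ?_, ?_, ?_, rst_eq h1, rst_eq h2, ?_, ?_⟩
  · intro w'
    have : ratm P m'.V w' ∈ range (ratm P m.V) := by rw [h3]; exact mem_range_self w'
    exact this
  · exact fun w w' hw => rst_eq (congrArg Prod.fst hw)
  · exact fun w w' hw => rst_eq (congrArg Prod.snd hw)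
  · intro k hk
    exact rst_eq (congrFun h5 ⟨k, Nat.lt_succ_of_le hk⟩)
  · intro a a' hrig k hk
    let C : Set ((P → Prop) × (P → Prop)) := {c | ∃ w ∈ a, ratm P m.V w = c}
    have e1 : {w | ratm P m.V w ∈ C} = a := by
      ext w
      constructor
      · rintro ⟨v, hv, h⟩
        obtain ⟨w', hw'⟩ := tot w
        exact (hrig w w' hw').2 ((hrig v w' (h.trans hw')).1 hv)
      · exact fun hw => ⟨w, hw, rfl⟩
    have e2 : {w | ratm P m'.V w ∈ C} = a' := by
      ext w'
      constructor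
      · rintro ⟨v, hv, h⟩
        exact (hrig v w' h).1 hv
      · intro hw'
        have : ratm P m'.V w' ∈ range (ratm P m.V) := by rw [h3]; exact mem_range_self w'
        obtain ⟨w, hw⟩ := this
        exact ⟨w, (hrig w w' hw).2 hw', hw⟩
    have := congrFun (congrFun h4 C) ⟨k, hk⟩
    rw [e1, e2] at this
    exact iff_of_eq this

lemma sh_rho {W : Type} (d : Set W → ℕ → Prop) (V : Pt W → ℕ → Prop) (φ : Fm) :
    rho ∈ ext (shd 0 d) (shV 0 V) φ ↔ rho ∈ ext d V φ := by
  have h1 : shd 0 d = d := by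
    funext a k
    simp [shd]
  have h2 : shV 0 V = V := by
    funext x
    cases x <;> simp [shV]
  rw [h1, h2]

lemma inv_sat {P : Set ℕ} {K : ℕ} {m m' : PM} (h : inv P K m = inv P K m') (φ : Fm)
    (hφ : φ.vars ⊆ P) (hd : depth φ ≤ K) : m.sat φ ↔ m'.sat φ := by
  have B := inv_bis h
  simp only [inv, Prod.mk.injEq] at h
  obtain ⟨h0, h1, _, h2, _, _, _⟩ := h
  unfold PM.sat
  have l := loc_iff m.d m.V m'.d m'.V P (rst_eq h1) φ hφ
  obtain ⟨W, ne, d, V, x, ok⟩ := m
  obtain ⟨W', ne', d', V', x', ok'⟩ := m'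
  cases x with
  | z =>
    cases x' with
    | z => exact l.1
    | w0 _ => exact absurd h0 (by simp [reg])
    | w1 _ => exact absurd h0 (by simp [reg])
    | e _ => exact absurd h0 (by simp [reg])
    | rho => exact absurd h0 (by simp [reg])
  | w0 w =>
    cases x' with
    | z => exact absurd h0 (by simp [reg])
    | w0 w' => exact (l.2 w w' (rst_eq (congrArg Prod.fst h2)) (rst_eq (congrArg Prod.snd h2))).1
    | w1 _ => exact absurd h0 (by simp [reg])
    | e _ => exact absurd h0 (by simp [reg])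
    | rho => exact absurd h0 (by simp [reg])
  | w1 w =>
    cases x' with
    | z => exact absurd h0 (by simp [reg])
    | w0 _ => exact absurd h0 (by simp [reg])
    | w1 w' => exact (l.2 w w' (rst_eq (congrArg Prod.fst h2)) (rst_eq (congrArg Prod.snd h2))).2
    | e _ => exact absurd h0 (by simp [reg])
    | rho => exact absurd h0 (by simp [reg])
  | e i =>
    cases x' with
    | z => exact absurd h0 (by simp [reg])
    | w0 _ => exact absurd h0 (by simp [reg])
    | w1 _ => exact absurd h0 (by simp [reg])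
    | e i' =>
      have h3 := B.sat_e φ hφ 0 (by simpa using hd)
      simp only [off] at h3
      rw [sh_e, sh_e] at h3
      simpa using h3
    | rho => exact absurd h0 (by simp [reg])
  | rho =>
    cases x' with
    | z => exact absurd h0 (by simp [reg])
    | w0 _ => exact absurd h0 (by simp [reg])
    | w1 _ => exact absurd h0 (by simp [reg])
    | e _ => exact absurd h0 (by simp [reg])
    | rho =>
      have h3 := B.sat_rho φ hφ hd
      simp only [off] at h3
      rw [sh_rho, sh_rho] at h3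
      exact h3

/-- If pointed models of `φ` and countermodels of `ψ` are always separated by formulas of bounded
depth with literals in the finite set `L`, then there is an interpolant with literals in `L`. -/
lemma interp (L : Set (ℕ × Bool)) (hL : L.Finite) (K : ℕ) (φ ψ : Fm)
    (h : ∀ m m' : PM, m.sat φ → ¬ m'.sat ψ →
      ∃ θ : Fm, θ.lits ⊆ L ∧ depth θ ≤ K ∧ m.sat θ ∧ ¬ m'.sat θ) :
    ∃ χ : Fm, χ.lits ⊆ L ∧ imp φ χ ∈ Lam ∧ imp χ ψ ∈ Lam := by
  have hP : (Prod.fst '' L).Finite := hL.image _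
  have := hP.to_subtype
  obtain ⟨s, ⟨χ, h1, _, rfl⟩, h2, h3⟩ := exists_sep
    {s : Set PM | ∃ θ : Fm, θ.lits ⊆ L ∧ depth θ ≤ K ∧ s = {m | m.sat θ}}
    ⟨bot, empty_subset _, Nat.zero_le _, by ext m; exact Iff.rfl⟩
    ⟨top, empty_subset _, Nat.zero_le _, by ext m; exact Iff.rfl⟩
    (by
      rintro _ ⟨θ, h1, h2, rfl⟩ _ ⟨η, h3, h4, rfl⟩
      exact ⟨Fm.or θ η, union_subset h1 h3, max_le h2 h4, by ext m; exact Iff.rfl⟩)
    (by
      rintro _ ⟨θ, h1, h2, rfl⟩ _ ⟨η, h3, h4, rfl⟩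
      exact ⟨Fm.and θ η, union_subset h1 h3, max_le h2 h4, by ext m; exact Iff.rfl⟩)
    (inv (Prod.fst '' L) K)
    (by
      rintro _ ⟨θ, h1, h2, rfl⟩ m m' hmm
      refine inv_sat hmm θ (fun p hp => ?_) h2
      obtain ⟨b, hb⟩ := vars_lits hp
      exact ⟨(p, b), h1 hb, rfl⟩)
    {m | m.sat φ} {m | m.sat ψ}
    (by
      intro m hm m' hm'
      obtain ⟨θ, h1, h2, h3, h4⟩ := h m m' hm hm'
      exact ⟨_, ⟨θ, h1, h2, rfl⟩, h3, h4⟩)
  refine ⟨χ, h1, ?_, ?_⟩
  · rw [imp_mem_Lam]; exact fun m hm => h2 hm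
  · rw [imp_mem_Lam]; exact fun m hm => h3 hm

/-- the constant defining the root -/
def Rr : Fm := Fm.and (dia T3.not) T1.not

lemma Rr_lits : Rr.lits = ∅ := by simp [Rr, Fm.lits, T3n_lits, T1n_lits]
lemma Rr_depth : depth Rr = 4 := rfl

section Rr

variable {W : Type} (d : Set W → ℕ → Prop) (V : Pt W → ℕ → Prop)

lemma Rr_z : ¬ z ∈ ext d V Rr := by simp [Rr]
lemma Rr_w0 (w : W) : ¬ w0 w ∈ ext d V Rr := by simp [Rr]
lemma Rr_w1 (w : W) : ¬ w1 w ∈ ext d V Rr := by simp [Rr]
lemma Rr_e [Nonempty W] (i : ℕ) : ¬ e i ∈ ext d V Rr := by simp [Rr, Mod, empty_ne_univ]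
lemma Rr_rho : rho ∈ ext d V Rr := by simp [Rr]

end Rr

end Pool.Agent.H674.MML
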